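import Pool.Agent.H911.KE.Man

/-!
The local rings of a projective variety as subrings of its function field, and embeddings by linear forms.
-/

set_option autoImplicit false

namespace Pool.Agent.H911.KE

open MvPolynomial
open Pool.Agent.W602.GT (SubVar GeneralType IsPluri)
open Pool.Agent.N254.SQ (IsForm Eqs Gen)
open Pool.Agent.H911.EM

/-- the closed points of the projective variety with generic point `y` -/
def Point {n : ℕ} {L : Type} [Field L] [Algebra ℂ L] (y : Fin (n + 1) → L)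
    (x : Fin (n + 1) → ℂ) : Prop :=
  x ≠ 0 ∧ ∀ F : MvPolynomial (Fin (n + 1)) ℂ, IsForm F → aeval y F = 0 → eval x F = 0

/-- the local ring at the point `x` of the variety with generic point `y` and function field `L`: the
functions `P(y) / Q(y)`, where `P` and `Q` are forms of the same degree and `Q(x) ≠ 0` -/
def LocalRing {n : ℕ} {L : Type} [Field L] [Algebra ℂ L] (y : Fin (n + 1) → L)
    (x : Fin (n + 1) → ℂ) : Set L :=
  {a | ∃ (d : ℕ) (P Q : MvPolynomial (Fin (n + 1)) ℂ), P.IsHomogeneous d ∧ Q.IsHomogeneous d ∧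
    eval x Q ≠ 0 ∧ a * aeval y Q = aeval y P}

/-- its maximal ideal: the functions `P(y) / Q(y)` as above with `P(x) = 0` -/
def MaxIdeal {n : ℕ} {L : Type} [Field L] [Algebra ℂ L] (y : Fin (n + 1) → L)
    (x : Fin (n + 1) → ℂ) : Set L :=
  {a | ∃ (d : ℕ) (P Q : MvPolynomial (Fin (n + 1)) ℂ), P.IsHomogeneous d ∧ Q.IsHomogeneous d ∧
    eval x P = 0 ∧ eval x Q ≠ 0 ∧ a * aeval y Q = aeval y P}

/-- the vector field `D` is regular at the point with local ring `O` -/
def VectorField {L : Type} [Field L] [Algebra ℂ L] (O : Set L) (D : Derivation ℂ L L) : Prop :=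
  ∀ a ∈ O, D a ∈ O

/-- the pluricanonical form `ω` is regular at the point with local ring `O` -/
def Regular {L : Type} [Field L] [Algebra ℂ L] (O : Set L) {w : ℕ}
    (ω : (Fin w → Derivation ℂ L L) → L) : Prop :=
  ∀ D : Fin w → Derivation ℂ L L, (∀ i, VectorField O (D i)) → ω D ∈ O

/-- the pluricanonical form `ω` is regular at the point with local ring `O` and maximal ideal `m` and does
not vanish there -/
def Generates {L : Type} [Field L] [Algebra ℂ L] (O m : Set L) {w : ℕ}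
    (ω : (Fin w → Derivation ℂ L L) → L) : Prop :=
  Regular O ω ∧ ∃ D : Fin w → Derivation ℂ L L, (∀ i, VectorField O (D i)) ∧ ω D ∉ m

/-- the varieties with generic points `v` and `y` and the same function field have the same local rings:
the birational map between them is an isomorphism -/
def SameRings {n M : ℕ} {L : Type} [Field L] [Algebra ℂ L] (v : Fin (M + 1) → L)
    (y : Fin (n + 1) → L) : Prop :=
  (∀ x, Point y x → ∃ x', Point v x' ∧ LocalRing v x' = LocalRing y x) ∧
    ∀ x', Point v x' → ∃ x, Point y x ∧ LocalRing v x' = LocalRing y x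

/-- The canonical class of the smooth projective variety of dimension `w` with generic point `y` is ample:
for some `r > 0` there are `r`-canonical forms `ω_0, …, ω_M` which are regular at all points and have no
common zeros, such that `(ω_0 : … : ω_M)` is an isomorphism to its image in `P^M`. -/
def AmpleCanonical {n : ℕ} {L : Type} [Field L] [Algebra ℂ L] (w : ℕ) (y : Fin (n + 1) → L) :
    Prop :=
  ∃ (r M : ℕ) (ω : Fin (M + 1) → (Fin w → Derivation ℂ L L) → L), 0 < r ∧
    (∀ j, IsPluri r (ω j)) ∧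
    (∀ x, Point y x → (∀ j, Regular (LocalRing y x) (ω j)) ∧
      ∃ j, Generates (LocalRing y x) (MaxIdeal y x) (ω j)) ∧
    ∃ D : Fin w → Derivation ℂ L L, (fun j => ω j D) ≠ 0 ∧ SameRings (fun j => ω j D) y

/-- `V(S)` is a connected projective manifold of dimension `w` with function field `L` and generic point
`y`: all its tangent spaces are of dimension at most `w` -/
structure Mfd {n : ℕ} (S : Set (MvPolynomial (Fin (n + 1)) ℂ)) (L : Type) [Field L] [Algebra ℂ L]
    (w : ℕ) (y : Fin (n + 1) → L) : Prop where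
  forms : ∀ F ∈ S, IsForm F
  tangent : TangentSpaces S w
  sub : SubVar (fun p : S => (p : MvPolynomial (Fin (n + 1)) ℂ)) L w y
  dense : ∀ x : Fin (n + 1) → ℂ, x ≠ 0 → (∀ F ∈ S, eval x F = 0) → Point y x

theorem Mfd.manifold {n : ℕ} {S : Set (MvPolynomial (Fin (n + 1)) ℂ)} {L : Type} [Field L]
    [Algebra ℂ L] {w : ℕ} {y : Fin (n + 1) → L} (h : Mfd S L w y) : Manifold S w :=
  ⟨h.forms, h.tangent, L, _, _, y, h.sub, fun x hx hxS G hG => (h.dense x hx hxS).2 G hG.1 hG.2⟩

theorem local_smul {n : ℕ} {L : Type} [Field L] [Algebra ℂ L] (y : Fin (n + 1) → L)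
    (x : Fin (n + 1) → ℂ) {c : ℂ} (hc : c ≠ 0) : LocalRing y (c • x) = LocalRing y x := by
  ext a
  refine exists_congr fun d => exists_congr fun P => exists_congr fun Q =>
    and_congr_right fun _ => and_congr_right fun hQ => and_congr_left fun _ => ?_
  have h1 : eval (c • x) Q = c ^ d * eval x Q := ev_smul (Ω := ℂ) hQ c x
  rw [h1]
  exact ⟨fun h h2 => h (by rw [h2, mul_zero]), fun h => mul_ne_zero (pow_ne_zero _ hc) h⟩

section

variable {n N : ℕ} {S : Set (MvPolynomial (Fin (n + 1)) ℂ)}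
  {S' : Set (MvPolynomial (Fin (N + 1)) ℂ)} {A : Fin (N + 1) → MvPolynomial (Fin (n + 1)) ℂ}
  {L : Type} [Field L] [Algebra ℂ L] {w : ℕ} {y : Fin (n + 1) → L} (hE : Emb S S' A)
include hE

theorem emb_ne {x : Fin (n + 1) → ℂ} (hx : x ≠ 0) (hxS : On S x) : at' A x ≠ 0 :=
  fun h => hx (hE.zero ℂ x hxS h)

theorem point_map (hS : Mfd S L w y) {x : Fin (n + 1) → ℂ} (hx : Point y x) :
    Point (at' A y) (at' A x) := by
  have hxS : On S x := fun F hF => hx.2 F (hS.forms F hF) (hS.sub.mem ⟨F, hF⟩)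
  refine ⟨emb_ne hE hx.1 hxS, fun F hF h0 => ?_⟩
  have h1 : eval x (bind₁ A F) = eval (at' A x) F := bind_at A F x
  rw [← h1]
  obtain ⟨e, he⟩ := hF
  refine hx.2 _ ⟨_, bind_hom hE.lin he⟩ ?_
  rw [bind_at]
  exact h0

/-- the points of the image -/
theorem point_lift (hS : Mfd S L w y) {z : Fin (N + 1) → ℂ} (hz : z ≠ 0) (hzS : On S' z) :
    ∃ (x : Fin (n + 1) → ℂ) (c : ℂ), c ≠ 0 ∧ Point y x ∧ at' A x = c • z := by
  obtain ⟨k, H, R, hH, hR, h0, h1, h2⟩ := hE.inv ℂ z hz hzS
  obtain ⟨h5, h6⟩ := h1 ℂ z hzS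
  have hx0 : at' R z ≠ 0 := by
    intro h
    rw [h] at h6
    have h7 : at' A (0 : Fin (n + 1) → ℂ) = 0 := by
      have h8 := at_smul hE.lin (0 : ℂ) (0 : Fin (n + 1) → ℂ)
      rw [zero_smul, pow_one, zero_smul] at h8
      exact h8
    rw [h7] at h6
    rcases smul_eq_zero.1 h6.symm with h8 | h8
    · exact h0 h8
    · exact hz h8
  exact ⟨at' R z, aeval z H, h0, hS.dense _ hx0 fun F hF => h5 F hF, h6⟩

/-- the local rings of the image -/
theorem local_map (hS : Mfd S L w y) {x : Fin (n + 1) → ℂ} (hx : Point y x) :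
    LocalRing (at' A y) (at' A x) = LocalRing y x ∧
      MaxIdeal (at' A y) (at' A x) = MaxIdeal y x := by
  have hyS : On S y := fun F hF => hS.sub.mem ⟨F, hF⟩
  have hxS : On S x := fun F hF => hx.2 F (hS.forms F hF) (hyS F hF)
  have hbA : ∀ F : MvPolynomial (Fin (N + 1)) ℂ, eval x (bind₁ A F) = eval (at' A x) F :=
    fun F => bind_at A F x
  have hA1 : ∀ {d : ℕ} {F : MvPolynomial (Fin (N + 1)) ℂ}, F.IsHomogeneous d →
      (bind₁ A F).IsHomogeneous (1 * d) := fun hF => bind_hom hE.lin hF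
  obtain ⟨k, H, R, hH, hR, h0, h1, h2⟩ := hE.inv ℂ (at' A x) (emb_ne hE hx.1 hxS)
    (hE.map ℂ x hxS)
  have h0' : eval (at' A x) H ≠ 0 := h0
  have e1 : ∀ {d : ℕ} {F : MvPolynomial (Fin (n + 1)) ℂ}, F.IsHomogeneous d →
      eval (at' A x) (bind₁ R F) = eval (at' A x) H ^ d * eval x F := by
    intro d F hF
    have h3 : eval (at' A x) (bind₁ R F) = eval (at' R (at' A x)) F := bind_at R F (at' A x)
    rw [h3, h2 ℂ x hxS]
    exact ev_smul (Ω := ℂ) hF _ x
  have e2 : ∀ {d : ℕ} {F : MvPolynomial (Fin (n + 1)) ℂ}, F.IsHomogeneous d →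
      aeval (at' A y) (bind₁ R F) = aeval (at' A y) H ^ d * aeval y F := by
    intro d F hF
    rw [bind_at, h2 L y hyS]
    exact ev_smul hF _ y
  constructor
  · ext a
    constructor
    · rintro ⟨d, P, Q, hP, hQ, hQx, ha⟩
      refine ⟨1 * d, bind₁ A P, bind₁ A Q, hA1 hP, hA1 hQ, ?_, ?_⟩
      · rw [hbA]
        exact hQx
      · rw [bind_at, bind_at]
        exact ha
    · rintro ⟨d, P, Q, hP, hQ, hQx, ha⟩
      refine ⟨(k + 1) * d, bind₁ R P, bind₁ R Q, bind_hom hR hP, bind_hom hR hQ, ?_, ?_⟩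
      · rw [e1 hQ]
        exact mul_ne_zero (pow_ne_zero _ h0') hQx
      · rw [e2 hQ, e2 hP, ← ha]
        ring
  · ext a
    constructor
    · rintro ⟨d, P, Q, hP, hQ, hPx, hQx, ha⟩
      refine ⟨1 * d, bind₁ A P, bind₁ A Q, hA1 hP, hA1 hQ, ?_, ?_, ?_⟩
      · rw [hbA]
        exact hPx
      · rw [hbA]
        exact hQx
      · rw [bind_at, bind_at]
        exact ha
    · rintro ⟨d, P, Q, hP, hQ, hPx, hQx, ha⟩
      refine ⟨(k + 1) * d, bind₁ R P, bind₁ R Q, bind_hom hR hP, bind_hom hR hQ, ?_, ?_, ?_⟩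
      · rw [e1 hP, hPx, mul_zero]
      · rw [e1 hQ]
        exact mul_ne_zero (pow_ne_zero _ h0') hQx
      · rw [e2 hQ, e2 hP, ← ha]
        ring

/-- the image of a manifold, with its generic point -/
theorem mfd_image (hS : Mfd S L w y) (hS' : Manifold S' w) : Mfd S' L w (at' A y) := by
  have hyS : On S y := fun F hF => hS.sub.mem ⟨F, hF⟩
  have hgen := (hE.weak hS.forms hS'.1).gen ⟨hS.sub.ne, hS.sub.gen, hS.sub.dim⟩ hyS
  refine ⟨hS'.1, hS'.2.1, ⟨hgen.ne, fun p => hE.map L y hyS p.1 p.2, hgen.gen, hgen.dim⟩,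
    fun z hz hzS => ⟨hz, fun F hF h0 => ?_⟩⟩
  obtain ⟨x, c, hc, hx, hxz⟩ := point_lift hE hS hz fun F hF => hzS F hF
  have h1 := (point_map hE hS hx).2 F hF h0
  obtain ⟨e, he⟩ := hF
  rw [hxz] at h1
  have h2 : eval (c • z) F = c ^ e * eval z F := ev_smul (Ω := ℂ) he c z
  rw [h2] at h1
  exact (mul_eq_zero.1 h1).resolve_left (pow_ne_zero _ hc)

/-- the canonical class of the image -/
theorem ample_iff (hS : Mfd S L w y) (hS' : Manifold S' w) :
    AmpleCanonical w (at' A y) ↔ AmpleCanonical w y := by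
  have hI := mfd_image hE hS hS'
  have hback : ∀ z, Point (at' A y) z → ∃ x, Point y x ∧
      LocalRing (at' A y) z = LocalRing y x := by
    intro z hz
    obtain ⟨x, c, hc, hx, hxz⟩ := point_lift hE hS hz.1 fun F hF =>
      hz.2 F (hS'.1 F hF) (hI.sub.mem ⟨F, hF⟩)
    refine ⟨x, hx, ?_⟩
    rw [← (local_map hE hS hx).1, hxz, local_smul _ _ hc]
  constructor
  · rintro ⟨r, M, ω, hr, hω, hreg, D, hD, h1, h2⟩
    refine ⟨r, M, ω, hr, hω, fun x hx => ?_, D, hD, fun x hx => ?_, fun x' hx' => ?_⟩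
    · have h3 := hreg _ (point_map hE hS hx)
      rwa [(local_map hE hS hx).1, (local_map hE hS hx).2] at h3
    · obtain ⟨x', hx', h3⟩ := h1 _ (point_map hE hS hx)
      exact ⟨x', hx', h3.trans (local_map hE hS hx).1⟩
    · obtain ⟨z, hz, h3⟩ := h2 x' hx'
      obtain ⟨x, hx, h4⟩ := hback z hz
      exact ⟨x, hx, h3.trans h4⟩
  · rintro ⟨r, M, ω, hr, hω, hreg, D, hD, h1, h2⟩
    refine ⟨r, M, ω, hr, hω, fun z hz => ?_, D, hD, fun z hz => ?_, fun x' hx' => ?_⟩
    · obtain ⟨x, c, hc, hx, hxz⟩ := point_lift hE hS hz.1 fun F hF =>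
        hz.2 F (hS'.1 F hF) (hI.sub.mem ⟨F, hF⟩)
      have h3 := hreg x hx
      rw [← (local_map hE hS hx).1, ← (local_map hE hS hx).2, hxz, local_smul _ _ hc] at h3
      have h4 : MaxIdeal (at' A y) (c • z) = MaxIdeal (at' A y) z := by
        ext a
        refine exists_congr fun d => exists_congr fun P => exists_congr fun Q =>
          and_congr_right fun hP => and_congr_right fun hQ => ?_
        have h5 : eval (c • z) P = c ^ d * eval z P := ev_smul (Ω := ℂ) hP c z
        have h6 : eval (c • z) Q = c ^ d * eval z Q := ev_smul (Ω := ℂ) hQ c z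
        rw [h5, h6]
        have h7 : c ^ d ≠ 0 := pow_ne_zero _ hc
        refine and_congr ?_ (and_congr_left fun _ => ?_)
        · exact ⟨fun h => (mul_eq_zero.1 h).resolve_left h7, fun h => by rw [h, mul_zero]⟩
        · exact ⟨fun h h8 => h (by rw [h8, mul_zero]), fun h => mul_ne_zero h7 h⟩
      rwa [h4] at h3
    · obtain ⟨x, hx, h3⟩ := hback z hz
      obtain ⟨x', hx', h4⟩ := h1 x hx
      exact ⟨x', hx', h4.trans h3.symm⟩
    · obtain ⟨x, hx, h3⟩ := h2 x' hx'
      exact ⟨at' A x, point_map hE hS hx, h3.trans (local_map hE hS hx).1.symm⟩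

end

end Pool.Agent.H911.KE
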