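import Pool.Agent.H911.KD.Fwd

/-!
Equivalences in every dimension: varieties of dimension at most `m`, and hypersurfaces which are
hyperbolic outside of a closed subset of dimension at most `m`.
-/

set_option autoImplicit false

namespace Pool.Agent.H911.KE

open MvPolynomial Metric
open Pool.Agent.N254.SQ (Eqs IsForm aeval_zero_of Gen NotIn LogGeneral OnSpecialQ OnCurvesQ OnDiscsQ
  Component powerForm comp_trdeg qf_eqs qf_eqsForm OnSab OnSpecial OnCurves)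
open Pool.Agent.W602.GT (SubVar GeneralType coords)
open Pool.Agent.H911.QD (coords_affine)
open Pool.Agent.H911.GD (Typ typ_special typ_curves typ_discs typ_con typ_sab SabQ Moves Mdl Pair
  Compat Excep transfer_log transfer_iff transfer_notIn pt_trdeg Four four_iff Cond4 moves_curves
  moves_discs moves_special Lin lin_form exists_linear mdl_lin compat_lin)
open Pool.Agent.H911.KD (PropK SmallSing Bounds HasModels exists_model backward_iff backward_imp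
  DimLe forwardS_eq forwardS_no Transfer)

/-! ### dimensions -/

/-- subvarieties of a variety of dimension `w` are of dimension at most `w` -/
theorem eqs_dim {n : ℕ} {L : Type} [Field L] [Algebra ℂ L] {w : ℕ} {z : Fin (n + 1) → L}
    (hz : Gen L w z) : DimLe (Eqs z) w := by
  intro L' _ _ w' y hy
  obtain ⟨a, ha⟩ : ∃ a, y a ≠ 0 := by
    by_contra hcon
    push Not at hcon
    exact hy.ne (funext hcon)
  have hu' : (fun j => y j / y a) = (y a)⁻¹ • y := by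
    funext j
    rw [Pi.smul_apply, smul_eq_mul, div_eq_inv_mul]
  have h1 : Algebra.trdeg ℂ (Algebra.adjoin ℂ (Set.range fun j => y j / y a)) =
      (w' : Cardinal) := by
    rw [← comp_trdeg, ← coords_affine _ a ha, hy.gen]
    rw [(IntermediateField.topEquiv (F := ℂ) (E := L')).trdeg_eq, hy.dim]
  have h2 := pt_trdeg hz a (fun j => y j / y a) (div_self ha) (fun p hp => by
    rw [hu', aeval_zero_of hp.1 (inv_ne_zero ha)]
    exact hy.mem ⟨p, hp⟩)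
  rw [h1] at h2
  exact_mod_cast h2

theorem dimLe_mono {n m m' : ℕ} {S : Set (MvPolynomial (Fin (n + 1)) ℂ)} (h : DimLe S m)
    (hm : m ≤ m') : DimLe S m' := fun L _ _ w y hy => (h L w y hy).trans hm

/-! ### the exceptional sets of the hypersurface and of the base locus -/

theorem comp_congr {n : ℕ} {I J : MvPolynomial (Fin (n + 1)) ℂ → Prop}
    (h : ∀ G, IsForm G → (I G ↔ J G)) {L : Type} [Field L] [Algebra ℂ L] {y : Fin (n + 1) → L}
    (hc : Component I y) : Component J y := by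
  obtain ⟨h1, H, hH, hHy, h2⟩ := hc
  refine ⟨fun G hG hJ => h1 G hG ((h G hG).2 hJ), H, hH, hHy, fun G hG hGy => ?_⟩
  exact (h _ (Pool.Agent.N254.SQ.qf_mul hG hH)).1 (h2 G hG hGy)

section base

variable {P : ∀ n : ℕ, Set (MvPolynomial (Fin (n + 1)) ℂ) →
    Set (MvPolynomial (Fin (n + 1)) ℂ) → MvPolynomial (Fin (n + 1)) ℂ → Prop} (hP : Typ P)
  {N : ℕ} {A : MvPolynomial (Fin (N + 1)) ℂ} {L : Type} [Field L] [Algebra ℂ L] {w : ℕ}
  {z : Fin (N + 1) → L} {T : Set (MvPolynomial (Fin (N + 1)) ℂ)}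
  (hb : ∀ F ∈ Eqs z, P N {A} T F)
include hP hb

theorem base_iff (hv : ∀ (Ω : Type) [Field Ω] [Algebra ℂ Ω] (x : Fin (N + 1) → Ω),
      (∀ p ∈ Eqs z, aeval x p = 0) → aeval x A = 0) (G : MvPolynomial (Fin (N + 1)) ℂ)
    (hG : IsForm G) : P N {A} T G ↔ P N (Eqs z) T G := by
  constructor
  · intro h
    refine hP.mono N {A} (Eqs z) T (fun L' _ _ x hx p hp => ?_) G h
    rw [Set.mem_singleton_iff] at hp
    rw [hp]
    exact hv L' x hx
  · intro h
    have h1 : P N {A} T (G * 1) := by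
      refine hP.restr N {A} T L z G 1 hG ⟨0, isHomogeneous_one _ _⟩ (fun F hF hFz => ?_) h
      rw [mul_one]
      exact hb F ⟨hF, hFz⟩
    rwa [mul_one] at h1

omit hP in
/-- components of the exceptional set are in the base locus -/
theorem comp_in {L' : Type} [Field L'] [Algebra ℂ L'] {y : Fin (N + 1) → L'}
    (hc : Component (P N {A} T) y) : ∀ p ∈ Eqs z, aeval y p = 0 :=
  fun p hp => hc.1 p hp.1 (hb p hp)

/-- one direction -/
theorem out_imp (hz : Gen L w z) {m : ℕ} (hwm : w ≤ m)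
    (h : ∀ (L : Type) [Field L] [Algebra ℂ L] (w : ℕ) (y : Fin (N + 1) → L), 1 ≤ w → w ≤ m →
      Gen L w y → NotIn T y → LogGeneral T L w y → ∃ G, IsForm G ∧ aeval y G ≠ 0 ∧
        P N (Eqs y) T G)
    (L' : Type) [Field L'] [Algebra ℂ L'] (w' : ℕ) (y : Fin (N + 1) → L') (hw' : 1 ≤ w')
    (hy : SubVar (fun _ : Unit => A) L' w' y) (hyT : NotIn T y) (hlog : LogGeneral T L' w' y) :
    ¬ Component (P N {A} T) y := by
  intro hc
  have hin := comp_in hb hc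
  have hle : w' ≤ w := eqs_dim hz L' w' y ⟨hy.ne, fun p => hin p.1 p.2, hy.gen, hy.dim⟩
  obtain ⟨G, hG, hGy, hPG⟩ := h L' w' y hw' (hle.trans hwm) ⟨hy.ne, hy.gen, hy.dim⟩ hyT hlog
  exact typ_con hP hc hG hGy hPG

/-- both directions -/
theorem out_iff (hz : Gen L w z) {m : ℕ} (hwm : w ≤ m)
    (hv : ∀ (Ω : Type) [Field Ω] [Algebra ℂ Ω] (x : Fin (N + 1) → Ω),
      (∀ p ∈ Eqs z, aeval x p = 0) → aeval x A = 0)
    (hs : ∀ F ∈ Eqs z, OnSpecialQ {A} T F) (hT : ∀ F ∈ T, IsForm F)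
    (h : ∀ (L : Type) [Field L] [Algebra ℂ L] (w : ℕ) (y : Fin (N + 1) → L), 1 ≤ w → w ≤ m →
      Gen L w y → NotIn T y → (LogGeneral T L w y ↔ ∃ G, IsForm G ∧ aeval y G ≠ 0 ∧
        P N (Eqs y) T G)) : Excep P A T := by
  have hdim : DimLe (Eqs z) m := dimLe_mono (eqs_dim hz) hwm
  have hf : ∀ p ∈ Eqs z, IsForm p := fun p hp => hp.1
  have hsp := base_iff (P := fun _ S T G => OnSpecialQ S T G) typ_special hs hv
  refine ⟨fun G hG => ?_, ?_⟩
  · rw [base_iff hP hb hv G hG, hsp G hG]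
    exact forwardS_eq hP hf hdim hT h G hG
  · intro L' _ _ w' y hw' hy hyT hlog hc
    have hin := comp_in (P := fun _ S T G => OnSpecialQ S T G) hs hc
    exact forwardS_no hP hf hdim h L' w' y hw' ⟨hy.ne, fun p => hin p.1 p.2, hy.gen, hy.dim⟩
      hyT hlog (comp_congr (fun G hG => hsp G hG) hc)

end base

/-! ### from hypersurfaces to varieties -/

/-- the hypersurface is hyperbolic outside of an irreducible closed subset of dimension at most `m` -/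
def Out {N : ℕ} (m k : ℕ) (A : MvPolynomial (Fin (N + 1)) ℂ) : Prop :=
  ∃ (L : Type) (_ : Field L) (_ : Algebra ℂ L) (w : ℕ) (z : Fin (N + 1) → L), w ≤ m ∧
    Gen L w z ∧ PropK k z A

section

variable {P : ∀ n : ℕ, Set (MvPolynomial (Fin (n + 1)) ℂ) →
    Set (MvPolynomial (Fin (n + 1)) ℂ) → MvPolynomial (Fin (n + 1)) ℂ → Prop} (hP : Typ P)
include hP

/-- from hypersurfaces to one variety -/
theorem final_one {N m k : ℕ} {D₁ : ℕ → ℕ} (H : Bounds N k D₁)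
    {E : ℕ → Set ℕ} (hE : ∀ e, ∃ D ∈ E e, D₁ e ≤ D) {TN : Set (MvPolynomial (Fin (N + 1)) ℂ)}
    (hTN : ∀ F ∈ TN, IsForm F)
    (h : ∀ (e D : ℕ) (Q : Fin (N * (2 * N + 1)) → MvPolynomial (Fin (N + 1)) ℂ), D ∈ E e →
      D₁ e ≤ D → (∀ t, (Q t).IsHomogeneous e) → Out m k (powerForm D Q) →
      Excep P (powerForm D Q) TN) {n : ℕ} {L : Type} [Field L] [Algebra ℂ L] {w : ℕ}
    {y : Fin (n + 1) → L} (hw : 1 ≤ w) (hwm : w ≤ m) (hy : Gen L w y)
    {T : Set (MvPolynomial (Fin (n + 1)) ℂ)}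
    (hT : ∀ F ∈ T, IsForm F) (hyT : NotIn T y) {M : ℕ} (hwM : w < M) (hM : M ≤ N)
    (hMN : M + w ≤ N + k)
    {A : Fin (M + 1) → MvPolynomial (Fin (n + 1)) ℂ} (hA : Mdl y A)
    (hC : Compat y (QD.ext N A) T TN)
    (htr : ∀ (z : Fin (N + 1) → L) (R : Fin (n + 1) → MvPolynomial (Fin (N + 1)) ℂ)
      (K : MvPolynomial (Fin (N + 1)) ℂ), Pair y z (QD.ext N A) R K →
      ((∃ G, IsForm G ∧ aeval z G ≠ 0 ∧ P N (Eqs z) TN G) ↔
        ∃ G, IsForm G ∧ aeval y G ≠ 0 ∧ P n (Eqs y) T G)) :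
    LogGeneral T L w y ↔ ∃ G, IsForm G ∧ aeval y G ≠ 0 ∧ P n (Eqs y) T G := by
  obtain ⟨e, D, Q, z, R, K, hDE, hD, hQ, hsm, hz, hp, hPr⟩ :=
    exists_model H hy hwM hM hMN hA hE
  obtain ⟨h1, h2⟩ := h e D Q hDE hD hQ ⟨L, _, _, w, z, hwm, hz, hp⟩
  rw [← transfer_log hPr hy.ne hT hTN hC, ← htr z R K hPr]
  exact backward_iff hw hz hp (transfer_notIn hPr hy.ne hC hyT) hP hTN h1 h2

/-- from hypersurfaces to varieties -/
theorem final_backward (hM : Moves P) {T : ∀ n : ℕ, Set (MvPolynomial (Fin (n + 1)) ℂ)}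
    (hT : ∀ n, ∀ F ∈ T n, IsForm F) {N m k : ℕ} (hmod : HasModels T N m k) {D₁ : ℕ → ℕ}
    (H : Bounds N k D₁) {E : ℕ → Set ℕ} (hE : ∀ e, ∃ D ∈ E e, D₁ e ≤ D)
    (h : ∀ (e D : ℕ) (Q : Fin (N * (2 * N + 1)) → MvPolynomial (Fin (N + 1)) ℂ), D ∈ E e →
      D₁ e ≤ D → (∀ t, (Q t).IsHomogeneous e) → Out m k (powerForm D Q) →
      Excep P (powerForm D Q) (T N)) {n : ℕ} {L : Type} [Field L] [Algebra ℂ L] {w : ℕ}
    {y : Fin (n + 1) → L} (hw : 1 ≤ w) (hwm : w ≤ m) (hy : Gen L w y) (hyT : NotIn (T n) y) :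
    LogGeneral (T n) L w y ↔ ∃ G, IsForm G ∧ aeval y G ≠ 0 ∧ P n (Eqs y) (T n) G := by
  obtain ⟨M, A, hwM, hMN', hMN, hA, hC⟩ := hmod n L w y hwm hy hyT
  exact final_one hP H hE (hT N) h hw hwm hy (hT n) hyT hwM hMN' hMN hA hC fun z R K hPr =>
    transfer_iff hM hPr (hT n) (hT N) hC

/-- one direction only -/
theorem final_imp (hM : Moves P) {T : ∀ n : ℕ, Set (MvPolynomial (Fin (n + 1)) ℂ)}
    (hT : ∀ n, ∀ F ∈ T n, IsForm F) {N m k : ℕ} (hmod : HasModels T N m k) {D₁ : ℕ → ℕ}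
    (H : Bounds N k D₁) {E : ℕ → Set ℕ} (hE : ∀ e, ∃ D ∈ E e, D₁ e ≤ D)
    (h : ∀ (e D : ℕ) (Q : Fin (N * (2 * N + 1)) → MvPolynomial (Fin (N + 1)) ℂ), D ∈ E e →
      D₁ e ≤ D → (∀ t, (Q t).IsHomogeneous e) → Out m k (powerForm D Q) →
      ∀ (L' : Type) [Field L'] [Algebra ℂ L'] (w' : ℕ) (y' : Fin (N + 1) → L'), 1 ≤ w' →
        SubVar (fun _ : Unit => powerForm D Q) L' w' y' → NotIn (T N) y' →
        LogGeneral (T N) L' w' y' → ¬ Component (P N {powerForm D Q} (T N)) y')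
    {n : ℕ} {L : Type} [Field L] [Algebra ℂ L] {w : ℕ}
    {y : Fin (n + 1) → L} (hw : 1 ≤ w) (hwm : w ≤ m) (hy : Gen L w y) (hyT : NotIn (T n) y)
    (hlog : LogGeneral (T n) L w y) : ∃ G, IsForm G ∧ aeval y G ≠ 0 ∧ P n (Eqs y) (T n) G := by
  obtain ⟨M, A, hwM, hMN', hMN, hA, hC⟩ := hmod n L w y hwm hy hyT
  obtain ⟨e, D, Q, z, R, K, hDE, hD, hQ, hsm, hz, hp, hPr⟩ :=
    exists_model H hy hwM hMN' hMN hA hE
  rw [← transfer_iff hM hPr (hT n) (hT N) hC]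
  exact backward_imp hw hz hp (transfer_notIn hPr hy.ne hC hyT) hP (hT N)
    (fun L' _ _ w' y' hw' hy' hyT' hl =>
      h e D Q hDE hD hQ ⟨L, _, _, w, z, hwm, hz, hp⟩ L' w' y' hw' hy' hyT' hl)
    ((transfer_log hPr hy.ne (hT n) (hT N) hC).2 hlog)

end

/-! ### four conditions -/

theorem four_backward {T : ∀ n : ℕ, Set (MvPolynomial (Fin (n + 1)) ℂ)}
    (hT : ∀ n, ∀ F ∈ T n, IsForm F) {N m k : ℕ} (hmod : HasModels T N m k) {D₁ : ℕ → ℕ}
    (H : Bounds N k D₁) {E : ℕ → Set ℕ} (hE : ∀ e, ∃ D ∈ E e, D₁ e ≤ D)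
    (h : ∀ (e D : ℕ) (Q : Fin (N * (2 * N + 1)) → MvPolynomial (Fin (N + 1)) ℂ), D ∈ E e →
      D₁ e ≤ D → (∀ t, (Q t).IsHomogeneous e) → Out m k (powerForm D Q) →
      Four (powerForm D Q) (T N)) {n : ℕ} {L : Type} [Field L] [Algebra ℂ L] {w : ℕ}
    {y : Fin (n + 1) → L} (hw : 1 ≤ w) (hwm : w ≤ m) (hy : Gen L w y) (hyT : NotIn (T n) y) :
    Cond4 (T n) L w y :=
  ⟨final_backward typ_curves moves_curves hT hmod H hE (fun e D Q h1 h2 h3 h4 =>
      ((four_iff _ _).1 (h e D Q h1 h2 h3 h4)).1) hw hwm hy hyT,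
    final_backward typ_discs moves_discs hT hmod H hE (fun e D Q h1 h2 h3 h4 =>
      ((four_iff _ _).1 (h e D Q h1 h2 h3 h4)).2.1) hw hwm hy hyT,
    final_backward typ_special moves_special hT hmod H hE (fun e D Q h1 h2 h3 h4 =>
      ((four_iff _ _).1 (h e D Q h1 h2 h3 h4)).2.2) hw hwm hy hyT⟩

section four

variable {N : ℕ} {A : MvPolynomial (Fin (N + 1)) ℂ} {L : Type} [Field L] [Algebra ℂ L] {w : ℕ}
  {z : Fin (N + 1) → L} {T : Set (MvPolynomial (Fin (N + 1)) ℂ)} (hz : Gen L w z) {m : ℕ}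
  (hwm : w ≤ m)
  (hv : ∀ (Ω : Type) [Field Ω] [Algebra ℂ Ω] (x : Fin (N + 1) → Ω),
    (∀ p ∈ Eqs z, aeval x p = 0) → aeval x A = 0)
  (hs : ∀ F ∈ Eqs z, OnSpecialQ {A} T F) (hc : ∀ F ∈ Eqs z, OnCurvesQ {A} T F)
  (hd : ∀ F ∈ Eqs z, OnDiscsQ {A} T F) (hT : ∀ F ∈ T, IsForm F)
include hz hwm hv hs hc hd hT

theorem four_out (h : ∀ (L : Type) [Field L] [Algebra ℂ L] (w : ℕ) (y : Fin (N + 1) → L), 1 ≤ w →
    w ≤ m → Gen L w y → NotIn T y → Cond4 T L w y) : Four A T :=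
  (four_iff A T).2
    ⟨out_iff (P := fun _ S T G => OnCurvesQ S T G) typ_curves hc hz hwm hv hs hT
        fun L _ _ w y hw hwk hy hyT => (h L w y hw hwk hy hyT).1,
      out_iff (P := fun _ S T G => OnDiscsQ S T G) typ_discs hd hz hwm hv hs hT
        fun L _ _ w y hw hwk hy hyT => (h L w y hw hwk hy hyT).2.1,
      out_iff (P := fun _ S T G => OnSpecialQ S T G) typ_special hs hz hwm hv hs hT
        fun L _ _ w y hw hwk hy hyT => (h L w y hw hwk hy hyT).2.2⟩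

end four

end Pool.Agent.H911.KE
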