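import Pool.Agent.H911.KE.Unc
import Pool.Agent.H911.EM.Ptf
import Pool.Agent.H911.EM.Stm

/-!
Closed subsets `V(R)` of a hypersurface `B = 0` which is hyperbolic outside of the closed set `V(S')`: their
exceptional sets are those of `V(R) ∩ V(S')`.
-/

set_option autoImplicit false

namespace Pool.Agent.H911.KE

open MvPolynomial Metric
open Pool.Agent.N254.SQ (Eqs IsForm Extends OnSab OnSpecial OnCurves OnDiscs OnSpecialQ OnCurvesQ
  OnDiscsQ NotIn LogGeneral ce_general OnTori OnAlgebraic OnBounded PointedFinite t_bend ptd_const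
  ptd_curve)
open Pool.Agent.W602.GT (SubVar GeneralType)
open Pool.Agent.W603.LV (canDeg)
open Pool.Agent.W603.PV (pht)
open Pool.Agent.W602.RG (HasValue)
open Pool.Agent.H911.EM
open scoped LinearAlgebra.Projectivization

section

variable {N : ℕ} {B : MvPolynomial (Fin (N + 1)) ℂ} {S' R T : Set (MvPolynomial (Fin (N + 1)) ℂ)}

theorem uncm_curves (hR : B ∈ R) (h : HyperbolicOutside B S') (G : MvPolynomial (Fin (N + 1)) ℂ) :
    OnCurves R G ↔ OnCurves (R ∪ S') G := by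
  constructor
  · intro h1 f hf hf0 hfR
    exact h1 f hf hf0 fun t p hp => hfR t p (Or.inl hp)
  · intro h1 f hf hf0 hfR
    rcases h.2.2.1 f hf hf0 (fun t => hfR t B hR) with h2 | h2
    · exact Or.inl h2
    · exact h1 f hf hf0 fun t p hp => hp.elim (hfR t p) (h2 t p)

theorem uncm_curvesQ (hR : B ∈ R) (h : HyperbolicOutside B S') (G : MvPolynomial (Fin (N + 1)) ℂ) :
    OnCurvesQ R T G ↔ OnCurvesQ (R ∪ S') T G := by
  constructor
  · intro h1 f hf hf0 hfR hT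
    exact h1 f hf hf0 (fun t p hp => hfR t p (Or.inl hp)) hT
  · intro h1 f hf hf0 hfR hT
    rcases h.2.2.1 f hf hf0 (fun t => hfR t B hR) with h2 | h2
    · exact Or.inl h2
    · exact h1 f hf hf0 (fun t p hp => hp.elim (hfR t p) (h2 t p)) hT

theorem uncm_special (hR : B ∈ R) (h : HyperbolicOutside B S') (G : MvPolynomial (Fin (N + 1)) ℂ) :
    OnSpecial R G ↔ OnSpecial (R ∪ S') G := by
  constructor
  · intro h1 L _ _ w y hw hy
    exact h1 L w y hw ⟨hy.ne, fun p => hy.mem ⟨p.1, Or.inl p.2⟩, hy.gen, hy.dim⟩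
  · intro h1 L _ _ w y hw hy
    rcases h.2.2.2.2 L w y hw ⟨hy.ne, fun _ => hy.mem ⟨B, hR⟩, hy.gen, hy.dim⟩ with h2 | h2
    · exact Or.inl h2
    · exact h1 L w y hw ⟨hy.ne, fun p => p.2.elim (fun hp => hy.mem ⟨p.1, hp⟩) (h2 p.1), hy.gen,
        hy.dim⟩

theorem uncm_specialQ (hR : B ∈ R) (h : HyperbolicOutside B S')
    (G : MvPolynomial (Fin (N + 1)) ℂ) : OnSpecialQ R T G ↔ OnSpecialQ (R ∪ S') T G := by
  constructor
  · intro h1 L _ _ w y hw hy hT
    exact h1 L w y hw ⟨hy.ne, fun p => hy.mem ⟨p.1, Or.inl p.2⟩, hy.gen, hy.dim⟩ hT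
  · intro h1 L _ _ w y hw hy hT
    rcases h.2.2.2.2 L w y hw ⟨hy.ne, fun _ => hy.mem ⟨B, hR⟩, hy.gen, hy.dim⟩ with h2 | h2
    · exact Or.inl (ce_general h2 _)
    · exact h1 L w y hw ⟨hy.ne, fun p => p.2.elim (fun hp => hy.mem ⟨p.1, hp⟩) (h2 p.1), hy.gen,
        hy.dim⟩ hT

theorem uncm_allGeneral (hR : B ∈ R) (h : HyperbolicOutside B S') :
    AllGeneral R ↔ AllGeneral (R ∪ S') := by
  constructor
  · intro h1 L _ _ w y hw hy
    exact h1 L w y hw ⟨hy.ne, fun p => hy.mem ⟨p.1, Or.inl p.2⟩, hy.gen, hy.dim⟩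
  · intro h1 L _ _ w y hw hy
    rcases h.2.2.2.2 L w y hw ⟨hy.ne, fun _ => hy.mem ⟨B, hR⟩, hy.gen, hy.dim⟩ with h2 | h2
    · exact h2
    · exact h1 L w y hw ⟨hy.ne, fun p => p.2.elim (fun hp => hy.mem ⟨p.1, hp⟩) (h2 p.1), hy.gen,
        hy.dim⟩

theorem uncm_noCurves (hR : B ∈ R) (h : HyperbolicOutside B S') :
    NoCurves R ↔ NoCurves (R ∪ S') := by
  constructor
  · intro h1 f hf hf0 hfR
    exact h1 f hf hf0 fun t p hp => hfR t p (Or.inl hp)
  · intro h1 f hf hf0 hfR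
    rcases h.2.2.1 f hf hf0 (fun t => hfR t B hR) with h2 | h2
    · exact h2
    · exact h1 f hf hf0 fun t p hp => hp.elim (hfR t p) (h2 t p)

/-- nonconstant maps from tori to `V(R)` are in `V(S')` -/
theorem tori_in (hB : IsForm B) (hS' : ∀ F ∈ S', IsForm F) (h : HyperbolicOutside B S') {g : ℕ}
    {F : (Fin g → ℂ) → Fin (N + 1) → ℂ} (hF : Differentiable ℂ F) (hF0 : ∀ z, F z ≠ 0)
    (hFB : ∀ z, eval (F z) B = 0) :
    (∀ z w, ∃ c : ℂ, F w = c • F z) ∨ ∀ z, ∀ p ∈ S', eval (F z) p = 0 := by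
  by_cases hne : ∀ z w, ∃ c : ℂ, F w = c • F z
  · exact Or.inl hne
  right
  obtain ⟨e, he⟩ := hB
  have hne' : ∃ p q i j, F p i * F q j ≠ F p j * F q i := by
    by_contra hcon
    push Not at hcon
    exact hne fun z w => Pool.Agent.N254.SQ.sb_par (hF0 z) (hcon z w)
  intro z G hG
  have h1 := (hy_of ⟨e, he⟩ h).out.line he hS' hF
    (fun p => by rw [MvPolynomial.map_id]; exact hFB p) hne' z (hF0 z) G hG
  rwa [MvPolynomial.map_id] at h1

theorem uncm_tori (hB : IsForm B) (hS' : ∀ F ∈ S', IsForm F) (hR : B ∈ R)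
    (h : HyperbolicOutside B S') (G : MvPolynomial (Fin (N + 1)) ℂ) :
    OnTori R G ↔ OnTori (R ∪ S') G := by
  constructor
  · intro h1 g L hL hs F hF hF0 hFR hFL
    exact h1 g L hL hs F hF hF0 (fun t p hp => hFR t p (Or.inl hp)) hFL
  · intro h1 g L hL hs F hF hF0 hFR hFL
    rcases tori_in hB hS' h hF hF0 (fun z => hFR z B hR) with h2 | h2
    · exact Or.inl h2
    · exact h1 g L hL hs F hF hF0 (fun t p hp => hp.elim (hFR t p) (h2 t p)) hFL

theorem uncm_noTori (hB : IsForm B) (hS' : ∀ F ∈ S', IsForm F) (hR : B ∈ R)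
    (h : HyperbolicOutside B S') : NoTori R ↔ NoTori (R ∪ S') := by
  constructor
  · intro h1 g L hL hs F hF hF0 hFR hFL
    exact h1 g L hL hs F hF hF0 (fun t p hp => hFR t p (Or.inl hp)) hFL
  · intro h1 g L hL hs F hF hF0 hFR hFL
    rcases tori_in hB hS' h hF hF0 (fun z => hFR z B hR) with h2 | h2
    · exact h2
    · exact h1 g L hL hs F hF hF0 (fun t p hp => hp.elim (hFR t p) (h2 t p)) hFL

theorem uncm_discsQ (hf : ∀ F ∈ R, IsForm F) (hf' : ∀ F ∈ S', IsForm F) (hT : ∀ F ∈ T, IsForm F)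
    (hR : B ∈ R) (h : HyperbolicOutside B S') (G : MvPolynomial (Fin (N + 1)) ℂ) (hG : IsForm G) :
    OnDiscsQ R T G ↔ OnDiscsQ (R ∪ S') T G := by
  have hP := Pool.Agent.H911.GD.typ_discs
  have hout : ∀ F ∈ S', OnDiscsQ R T F := by
    intro F hF f hf0 hf1 hS
    have h2 := Pool.Agent.H911.GD.disc_eqs hf hf0 hS
    rcases h.2.2.2.1 f hf0 hf1 (fun t ht => h2 t ht B hR) with h3 | h3
    · exact Or.inl h3
    · exact Or.inr fun w hw => h3 w hw F hF
  constructor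
  · intro h1
    exact hP.mono N R (R ∪ S') T (fun _ _ _ x hx p hp => hx p (Or.inl hp)) G h1
  · intro h1
    refine hP.coord N R T _ hG fun j => ?_
    by_contra hn
    obtain ⟨e, he⟩ := id hG
    have h2 : (G * X j).IsHomogeneous (e + 1) := he.mul (isHomogeneous_X _ _)
    obtain ⟨L, iF, iA, w, z, hw, hgen, hGz, hnot, hSz, hc⟩ :=
      Pool.Agent.H911.GD.typ_comp hP hf hT h2 (by omega) hn
    rw [map_mul] at hGz
    have hz : On (R ∪ S') z := fun F hF => hF.elim (hSz F) fun h3 =>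
      hc.1 F (hf' F h3) (hout F h3)
    exact Pool.Agent.H911.GD.typ_con hP hc hG (left_ne_zero_of_mul hGz)
      (Pool.Agent.H911.EM.Typ.sub hP (fun F hF => hF.elim (hf F) (hf' F)) hz h1)

theorem uncm_algebraic (hR : B ∈ R) (h : CurvesOutside B S') (G : MvPolynomial (Fin (N + 1)) ℂ) :
    OnAlgebraic R G ↔ OnAlgebraic (R ∪ S') G := by
  constructor
  · rintro ⟨α, hα⟩
    exact ⟨α, fun E _ _ _ y hy hyR hG => hα E y hy (fun p hp => hyR p (Or.inl hp)) hG⟩
  · rintro ⟨α, hα⟩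
    refine ⟨α + 1, fun E _ _ _ y hy hyR hG => ?_⟩
    have h0 : (0 : ℤ) ≤ max (canDeg ℂ E) 0 := le_max_right _ _
    have h1 : (0 : ℤ) ≤ (α : ℤ) := Int.natCast_nonneg _
    push_cast
    rcases h E y hy (hyR B hR) with h2 | h2
    · nlinarith
    · have := hα E y hy (fun p hp => hp.elim (hyR p) (h2 p)) hG
      nlinarith

theorem uncm_bounded (hR : B ∈ R) (h : CurvesOutside B S') (G : MvPolynomial (Fin (N + 1)) ℂ) :
    OnBounded R G ↔ OnBounded (R ∪ S') G := by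
  constructor
  · intro h1 E _ _ _
    obtain ⟨b, hb⟩ := h1 E
    exact ⟨b, fun y hy hyR hG => hb y hy (fun p hp => hyR p (Or.inl hp)) hG⟩
  · intro h1 E _ _ _
    obtain ⟨b, hb⟩ := h1 E
    refine ⟨max b (max (canDeg ℂ E) 0), fun y hy hyR hG => ?_⟩
    rcases h E y hy (hyR B hR) with h2 | h2
    · exact h2.trans (le_max_right _ _)
    · exact (hb y hy (fun p hp => hp.elim (hyR p) (h2 p)) hG).trans (le_max_left _ _)

theorem uncm_pointed (hf : ∀ F ∈ R, IsForm F) (hf' : ∀ F ∈ S', IsForm F) (hR : B ∈ R)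
    (h : CurvesOutside B S') : PointedFinite R ↔ PointedFinite (R ∪ S') := by
  have hx : ∀ F ∈ R ∪ S', IsForm F := fun F hF => hF.elim (hf F) (hf' F)
  constructor
  · intro h1 E _ _ _ c x hx
    refine (h1 E c x hx).subset ?_
    rintro φ ⟨f, hf, hfR, hv, hφ⟩
    exact ⟨f, hf, fun p hp => hfR p (Or.inl hp), hv, hφ⟩
  · intro h1 E _ _ _ c x hx0
    by_contra hinf
    have hinf2 : {φ : ℙ E (Fin (N + 1) → E) | ∃ (f : Fin (N + 1) → E) (hf : f ≠ 0),
        (∀ p ∈ R, aeval f p = 0) ∧ HasValue c x f ∧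
        pht ℂ f ≤ max (canDeg ℂ E) 0 ∧ φ = Projectivization.mk E f hf}.Infinite := by
      intro hfin
      apply hinf
      refine ((h1 E c x hx0).union hfin).subset ?_
      rintro φ ⟨f, hf0, hfR, hv, rfl⟩
      rcases h E f hf0 (hfR B hR) with h3 | h3
      · exact Or.inr ⟨f, hf0, hfR, hv, h3, rfl⟩
      · exact Or.inl ⟨f, hf0, fun p hp => hp.elim (hfR p) (h3 p), hv, rfl⟩
    obtain ⟨y, hy, hyR, hyn⟩ := t_bend N R hf E c x _ hx0 hinf2
    rcases h (RatFunc ℂ) y hy (hyR B hR) with h3 | h3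
    · rw [Pool.Agent.Y216.canDeg_ratFunc] at h3
      exact hyn (ptd_const hy (h3.trans (by norm_num)))
    · exact ptd_curve hx hy (fun p hp => hp.elim (hyR p) (h3 p)) hyn h1

/-- two closed sets without common points -/
theorem empty_zero (h : ∀ x : Fin (N + 1) → ℂ, x ≠ 0 → (∀ F ∈ R, eval x F = 0) →
      ∃ F ∈ S', eval x F ≠ 0) {Ω : Type} [Field Ω] [Algebra ℂ Ω] (x : Fin (N + 1) → Ω)
    (hx : ∀ F ∈ R ∪ S', aeval x F = 0) : x = 0 := by
  funext i
  have h1 := van_points (S := R ∪ S') (B := X i) (fun x hx => by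
    by_cases hx0 : x = 0
    · rw [hx0, eval_X, Pi.zero_apply]
    · obtain ⟨F, hF, hFx⟩ := h x hx0 fun F hF => hx F (Or.inl hF)
      exact absurd (hx F (Or.inr hF)) hFx) Ω x hx
  rwa [aeval_X] at h1

end

end Pool.Agent.H911.KE
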