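import Pool.Agent.H911.KE.Man
import Pool.Agent.H911.KE.UncM
import Pool.Agent.H911.EM.Corr
import Pool.Graph.R_pool_sql_team_seeded_63374d34.N254.SQ.LocDefs3
import Pool.Graph.R_pool_sql_team_seeded_63374d34.N254.SQ.FgA

/-!
Rational points over finitely generated fields under closed embeddings by linear forms.
-/

set_option autoImplicit false

namespace Pool.Agent.H911.KE

open MvPolynomial
open Pool.Agent.N254.SQ (IsForm FiniteOffFg OnTori)
open Pool.Agent.H911.EM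
open scoped LinearAlgebra.Projectivization

variable {n N : ℕ}

/-- the coefficients of finitely many polynomials -/
theorem fge_coeff {ι : Type} [Finite ι] (F : ι → MvPolynomial (Fin (n + 1)) ℂ) :
    ∃ t : Finset ℂ, ∀ L : Subfield ℂ, (t : Set ℂ) ⊆ L → ∀ x : Fin (n + 1) → ℂ, (∀ j, x j ∈ L) →
      ∀ i, eval x (F i) ∈ L := by
  classical
  cases nonempty_fintype ι
  refine ⟨Finset.univ.biUnion fun i => (F i).support.image fun d => (F i).coeff d,
    fun L hL x hx i => ?_⟩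
  rw [eval_eq']
  refine sum_mem fun d hd => mul_mem (hL ?_) (prod_mem fun j _ => pow_mem (hx j) _)
  rw [Finset.mem_coe, Finset.mem_biUnion]
  exact ⟨i, Finset.mem_univ i, Finset.mem_image.2 ⟨d, hd, rfl⟩⟩

open Classical in
/-- the map of the projective spaces -/
noncomputable def fge_map (A : Fin (N + 1) → MvPolynomial (Fin (n + 1)) ℂ)
    (P : ℙ ℂ (Fin (n + 1) → ℂ)) : ℙ ℂ (Fin (N + 1) → ℂ) :=
  if h : at' A P.rep ≠ 0 then Projectivization.mk ℂ (at' A P.rep) h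
  else Projectivization.mk ℂ (fun _ => 1) fun h => one_ne_zero (congrFun h 0)

theorem fge_mk {A : Fin (N + 1) → MvPolynomial (Fin (n + 1)) ℂ} (hA : ∀ i, (A i).IsHomogeneous 1)
    {x : Fin (n + 1) → ℂ} (hx : x ≠ 0) (h0 : at' A x ≠ 0) :
    fge_map A (Projectivization.mk ℂ x hx) = Projectivization.mk ℂ (at' A x) h0 := by
  obtain ⟨a, ha⟩ := Projectivization.exists_smul_eq_mk_rep ℂ x hx
  have h1 : (Projectivization.mk ℂ x hx).rep = (a : ℂ) • x := ha.symm
  have h2 : at' A (Projectivization.mk ℂ x hx).rep = (a : ℂ) • at' A x := by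
    rw [h1, at_smul hA, pow_one]
  have h3 : at' A (Projectivization.mk ℂ x hx).rep ≠ 0 := by
    rw [h2]
    exact smul_ne_zero a.ne_zero h0
  unfold fge_map
  rw [dif_pos h3, Projectivization.mk_eq_mk_iff]
  exact ⟨a, by rw [h2, Units.smul_def]⟩

variable {S : Set (MvPolynomial (Fin (n + 1)) ℂ)} {S' : Set (MvPolynomial (Fin (N + 1)) ℂ)}
  {A : Fin (N + 1) → MvPolynomial (Fin (n + 1)) ℂ} {B : MvPolynomial (Fin (N + 1)) ℂ}
  {G : MvPolynomial (Fin (n + 1)) ℂ} {T' : Set (MvPolynomial (Fin (N + 1)) ℂ)}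

/-- from the hypersurface to the closed set -/
theorem fge_down (hE : WEmb S S' A)
    (hB : ∀ z : Fin (N + 1) → ℂ, (∀ F ∈ S', eval z F = 0) → eval z B = 0)
    (hC : Corr S A G T') (h : ∀ G' ∈ T', FiniteOffFg {B} G') : FiniteOffFg S G := by
  classical
  intro s
  obtain ⟨T₁, hT₁, hfin, h1⟩ := exists_finite T'
  obtain ⟨t, ht⟩ := fge_coeff A
  have hZ := hfin.biUnion fun G' hG' => h G' (hT₁ hG') (s ∪ t)
  have hst : (s : Set ℂ) ⊆ Subfield.closure ((s ∪ t : Finset ℂ) : Set ℂ) := fun c hc =>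
    Subfield.subset_closure (by rw [Finset.coe_union]; exact Or.inl hc)
  have htt : (t : Set ℂ) ⊆ Subfield.closure ((s ∪ t : Finset ℂ) : Set ℂ) := fun c hc =>
    Subfield.subset_closure (by rw [Finset.coe_union]; exact Or.inr hc)
  refine Set.Finite.of_finite_image (f := fge_map A) (hZ.subset ?_) ?_
  · rintro _ ⟨P, ⟨x, hx, rfl, hxs, hxS, hxG⟩, rfl⟩
    have hxz : at' A x ≠ 0 := hE.ne_zero hx hxS
    have h2 : ¬ ∀ F ∈ T', eval (at' A x) F = 0 := fun h3 => hxG ((hC x hx hxS).2 h3)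
    have h3 : ∃ F ∈ T₁, eval (at' A x) F ≠ 0 := by
      by_contra hcon
      push Not at hcon
      exact h2 ((h1 ℂ (at' A x)).1 hcon)
    obtain ⟨F, hF, hF0⟩ := h3
    rw [Set.mem_iUnion₂]
    refine ⟨F, hF, at' A x, hxz, fge_mk hE.lin hx hxz, fun j => ?_, ?_, hF0⟩
    · exact ht _ htt x (fun j => (Subfield.closure_le.2 hst) (hxs j)) j
    · intro p hp
      rw [Set.mem_singleton_iff] at hp
      rw [hp]
      exact hB _ (hE.map ℂ x hxS)
  · rintro P ⟨x, hx, rfl, -, hxS, -⟩ P' ⟨x', hx', rfl, -, hxS', -⟩ h2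
    rw [fge_mk hE.lin hx (hE.ne_zero hx hxS), fge_mk hE.lin hx' (hE.ne_zero hx' hxS'),
      Projectivization.mk_eq_mk_iff'] at h2
    obtain ⟨c, hc⟩ := h2
    rw [Projectivization.mk_eq_mk_iff']
    exact ⟨c, (hE.inj ℂ x' x c hxS' hxS hc.symm).symm⟩

/-- from the closed set to the hypersurface, if there are only finitely many points outside of the closed
set -/
theorem fge_up (hS : ∀ F ∈ S, IsForm F) (hE : Emb S S' A)
    (hF : ∀ F ∈ S', FiniteOffFg {B} F) (hC : Corr S A G T') (hG : FiniteOffFg S G) :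
    ∀ G' ∈ T', FiniteOffFg {B} G' := by
  classical
  intro G' hG' s
  obtain ⟨Hs, hHs⟩ : ∃ Hs : Set (MvPolynomial (Fin (N + 1)) ℂ), Hs = {H |
    ∃ R : Fin (n + 1) → MvPolynomial (Fin (N + 1)) ℂ, ∀ u : Fin (N + 1) → ℂ, On S' u →
      On S (at' R u) ∧ at' A (at' R u) = aeval u H • u} := ⟨_, rfl⟩
  obtain ⟨T₂, hT₂, hfin₂, h2⟩ := exists_finite Hs
  obtain ⟨S₁, hS₁, hfinS, h1⟩ := exists_finite S'
  have hR : ∀ H : T₂, ∃ R : Fin (n + 1) → MvPolynomial (Fin (N + 1)) ℂ,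
      ∀ u : Fin (N + 1) → ℂ, On S' u →
        On S (at' R u) ∧ at' A (at' R u) = aeval u (H : MvPolynomial (Fin (N + 1)) ℂ) • u := by
    intro H
    have := hT₂ H.2
    rw [hHs] at this
    exact this
  choose R hR using hR
  have : Finite T₂ := hfin₂
  obtain ⟨t₁, ht₁⟩ := fge_coeff (fun i : T₂ × Fin (n + 1) => R i.1 i.2)
  obtain ⟨t₂, ht₂⟩ := fge_coeff (fun H : T₂ => (H : MvPolynomial (Fin (N + 1)) ℂ))
  have hs0 : (s : Set ℂ) ⊆ Subfield.closure ((s ∪ (t₁ ∪ t₂) : Finset ℂ) : Set ℂ) := fun c hc =>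
    Subfield.subset_closure (by
      rw [Finset.coe_union]
      exact Or.inl hc)
  have hs1 : (t₁ : Set ℂ) ⊆ Subfield.closure ((s ∪ (t₁ ∪ t₂) : Finset ℂ) : Set ℂ) := fun c hc =>
    Subfield.subset_closure (by
      rw [Finset.coe_union, Finset.coe_union]
      exact Or.inr (Or.inl hc))
  have hs2 : (t₂ : Set ℂ) ⊆ Subfield.closure ((s ∪ (t₁ ∪ t₂) : Finset ℂ) : Set ℂ) := fun c hc =>
    Subfield.subset_closure (by
      rw [Finset.coe_union, Finset.coe_union]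
      exact Or.inr (Or.inr hc))
  refine ((hfinS.biUnion fun F hF' => hF F (hS₁ hF') s).union
    ((hG (s ∪ (t₁ ∪ t₂))).image (fge_map A))).subset ?_
  rintro P ⟨u, hu, rfl, hus, huB, huG⟩
  by_cases huS : ∀ F ∈ S', eval u F = 0
  · right
    obtain ⟨k, H, R', -, -, hH0, hH1, -⟩ := hE.inv ℂ u hu huS
    have hHm : H ∈ Hs := by
      rw [hHs]
      exact ⟨R', fun u hu => hH1 ℂ u hu⟩
    have h3 : ∃ H ∈ T₂, eval u H ≠ 0 := by
      by_contra hcon
      push Not at hcon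
      exact hH0 ((h2 ℂ u).1 hcon H hHm)
    obtain ⟨H', hH', hH'0⟩ := h3
    have h4 := hR ⟨H', hH'⟩ u huS
    have hus' := fun j => (Subfield.closure_le.2 hs0) (hus j)
    obtain ⟨x, hx⟩ : ∃ x : Fin (n + 1) → ℂ, x = (eval u H')⁻¹ • at' (R ⟨H', hH'⟩) u := ⟨_, rfl⟩
    have hxS : On S x := by
      rw [hx]
      exact on_smul hS h4.1 _
    have hxA : at' A x = u := by
      rw [hx, at_smul hE.lin, pow_one, h4.2]
      change (eval u H')⁻¹ • (eval u H') • u = u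
      rw [smul_smul, inv_mul_cancel₀ hH'0, one_smul]
    have hx0 : x ≠ 0 := by
      intro h5
      apply hu
      rw [← hxA, h5]
      have := at_smul hE.lin (0 : ℂ) (0 : Fin (n + 1) → ℂ)
      rwa [pow_one, smul_zero, zero_smul] at this
    refine ⟨Projectivization.mk ℂ x hx0, ⟨x, hx0, rfl, fun j => ?_, hxS, fun h5 => ?_⟩, ?_⟩
    · rw [hx, Pi.smul_apply, smul_eq_mul]
      exact mul_mem (inv_mem (ht₂ _ hs2 u hus' ⟨H', hH'⟩)) (ht₁ _ hs1 u hus' (⟨H', hH'⟩, j))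
    · have h6 := (hC x hx0 hxS).1 h5 G' hG'
      rw [hxA] at h6
      exact huG h6
    · rw [fge_mk hE.lin hx0 (by rw [hxA]; exact hu)]
      congr 1
  · left
    have h3 : ∃ F ∈ S₁, eval u F ≠ 0 := by
      by_contra hcon
      push Not at hcon
      exact huS ((h1 ℂ u).1 hcon)
    obtain ⟨F, hF1, hF0⟩ := h3
    rw [Set.mem_iUnion₂]
    exact ⟨F, hF1, u, hu, rfl, hus, huB, hF0⟩

end Pool.Agent.H911.KE
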