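import Pool.Agent.H911.EM.Stm
import Pool.Agent.H911.EM.NoComp

/-!
Closed subsets of smooth hypersurfaces which have no exceptional sets outside of a small closed subset:
equivalences for quasi-projective varieties.
-/

set_option autoImplicit false

namespace Pool.Agent.H911.KE

open MvPolynomial Metric
open Pool.Agent.W602.GT (SubVar GeneralType)
open Pool.Agent.H911.QD (coords_affine)
open Pool.Agent.N254.SQ (IsForm Eqs Gen NotIn LogGeneral OnSpecialQ OnCurvesQ OnDiscsQ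
  Component SmoothForm powerForm powerFormOver SmoothOver qf_eqs qf_eqsForm comp_trdeg)
open Pool.Agent.H911.GD (Typ Moves typ_curves typ_discs typ_special moves_curves moves_discs
  moves_special Compat typ_comp typ_con typ_deg)
open Pool.Agent.H911.EM

section

variable {K : Type} [Field K]

theorem sm_mono {n d d' : ℕ} {S S₁ : Set (MvPolynomial (Fin (n + 1)) K)} (hS : Sm S d)
    (hd : d ≤ d') (hs : S ⊆ S₁) (h₁ : ∀ F ∈ S₁, ∃ e, F.IsHomogeneous e) : Sm S₁ d' where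
  forms := h₁
  bd := by
    intro Ω _ _ x a ha hx
    have h1 := hS.bd Ω x a ha fun F hF => hx F (hs hF)
    have h2 : Tan S₁ x ≤ Tan S x := fun v hv F hF => hv F (hs hF)
    have h3 := Submodule.finrank_mono h2
    refine (add_le_add_right (Nat.cast_le.2 h3) _).trans (h1.trans ?_)
    exact_mod_cast (by omega : d + 1 ≤ d' + 1)

theorem dm_mono {n d : ℕ} {S S₁ : Set (MvPolynomial (Fin (n + 1)) K)} (hS : Dm S d)
    (hs : S ⊆ S₁) (h₁ : ∀ F ∈ S₁, ∃ e, F.IsHomogeneous e) : Dm S₁ d where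
  forms := h₁
  bd := fun Ω _ _ x a ha hx => hS.bd Ω x a ha fun F hF => hx F (hs hF)

theorem small_forms {n N : ℕ} {S : Set (MvPolynomial (Fin (n + 1)) K)} (hS : Small S N) :
    ∀ F ∈ S, ∃ e, F.IsHomogeneous e := by
  rcases hS with ⟨d, h, -⟩ | ⟨d, h, -⟩
  · exact h.forms
  · exact h.forms

theorem small_mono {n N : ℕ} {S S₁ : Set (MvPolynomial (Fin (n + 1)) K)} (hS : Small S N)
    (hs : S ⊆ S₁) (h₁ : ∀ F ∈ S₁, ∃ e, F.IsHomogeneous e) : Small S₁ N := by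
  rcases hS with ⟨d, h, hd⟩ | ⟨d, h, hd⟩
  · exact Or.inl ⟨d, sm_mono h le_rfl hs h₁, hd⟩
  · exact Or.inr ⟨d, dm_mono h hs h₁, hd⟩

end

theorem small_eqs {n N : ℕ} {S : Set (MvPolynomial (Fin (n + 1)) ℂ)} (hS : Small S N) {L : Type}
    [Field L] [Algebra ℂ L] {y : Fin (n + 1) → L} (hy : On S y) : Small (Eqs y) N :=
  small_mono hS (fun F hF => ⟨small_forms hS F hF, hy F hF⟩) fun F hF => hF.1

/-- the dimension of small closed sets -/
theorem small_dim {n N : ℕ} {S : Set (MvPolynomial (Fin (n + 1)) ℂ)} (hS : Small S N) (L : Type)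
    [Field L] [Algebra ℂ L] (w : ℕ) (y : Fin (n + 1) → L)
    (hy : SubVar (fun p : S => (p : MvPolynomial (Fin (n + 1)) ℂ)) L w y) : 2 * w + 1 ≤ N := by
  obtain ⟨a, ha⟩ : ∃ a, y a ≠ 0 := by
    by_contra hcon
    push Not at hcon
    exact hy.ne (funext hcon)
  have hu : (fun j => y j / y a) = (y a)⁻¹ • y := by
    funext j
    rw [Pi.smul_apply, smul_eq_mul, div_eq_inv_mul]
  have h1 : Algebra.trdeg ℂ (Algebra.adjoin ℂ (Set.range fun j => y j / y a)) =
      (w : Cardinal) := by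
    rw [← comp_trdeg, ← coords_affine _ a ha, hy.gen]
    rw [(IntermediateField.topEquiv (F := ℂ) (E := L)).trdeg_eq, hy.dim]
  have h2 : On S (fun j => y j / y a) := by
    rw [hu]
    exact on_smul (small_forms hS) (fun p hp => hy.mem ⟨p, hp⟩) _
  rcases hS with ⟨d, h, hd⟩ | ⟨d, h, hd⟩
  · obtain ⟨r, hr, -, h3⟩ := h.nat (fun j => y j / y a) a (div_self ha) h2
    rw [h1] at hr
    have h4 : w = r := by exact_mod_cast hr
    omega
  · have h3 := h.bd L (fun j => y j / y a) a (div_self ha) h2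
    rw [h1] at h3
    have h4 : w ≤ d := by exact_mod_cast h3
    omega

/-- the models, with the condition on the image -/
theorem exists_modelsS (N : ℕ) (hN : 1 ≤ N) : ∃ D₁ : ℕ → ℕ,
    ∀ (n : ℕ) (S : Set (MvPolynomial (Fin (n + 1)) ℂ)), Small S N →
      ∃ (e : ℕ) (S' : Set (MvPolynomial (Fin (N + 1)) ℂ))
        (A : Fin (N + 1) → MvPolynomial (Fin (n + 1)) ℂ), 1 ≤ e ∧ Small S' N ∧ WEmb S S' A ∧
        ((∃ d, Sm S d ∧ d + 1 ≤ N) → Emb S S' A) ∧
        ∀ D, D₁ e ≤ D → ∃ Q : Fin (N * (2 * N + 1)) → MvPolynomial (Fin (N + 1)) ℂ,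
          (∀ t, (Q t).IsHomogeneous e) ∧ HyperbolicOutside (powerForm D Q) S' := by
  obtain ⟨D₁, H⟩ := exists_hypD N hN
  have key : ∀ (S' : Set (MvPolynomial (Fin (N + 1)) ℂ)) (d : ℕ), Sm S' d → d + 1 ≤ N →
      ∃ e : ℕ, 1 ≤ e ∧ ∀ D, D₁ e ≤ D →
        ∃ Q : Fin (N * (2 * N + 1)) → MvPolynomial (Fin (N + 1)) ℂ,
          (∀ t, (Q t).IsHomogeneous e) ∧ HyperbolicOutside (powerForm D Q) S' := by
    intro S' d hS' hd
    obtain ⟨e, he, h⟩ := H ℂ S' d hS' hd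
    refine ⟨e, he, fun D hD => ?_⟩
    obtain ⟨Q, hQ, hsm, hv, hO⟩ := h D hD
    refine ⟨Q, hQ, outside_of ?_ hv (hO _)⟩
    intro y hy
    obtain ⟨j, hj⟩ := hsm ℂ (RingHom.id ℂ) y hy
    exact ⟨j, hj⟩
  refine ⟨D₁, fun n S hS => ?_⟩
  by_cases h : ∃ d, Sm S d ∧ d + 1 ≤ N
  · obtain ⟨d, hd, hdN⟩ := h
    obtain ⟨S', A, hS', hA⟩ := exists_emb hdN hd
    obtain ⟨e, he, h2⟩ := key S' d hS' hdN
    exact ⟨e, S', A, he, Or.inl ⟨d, hS', hdN⟩, hA.weak hd.forms hS'.forms, fun _ => hA, h2⟩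
  · obtain ⟨w, hw, hwN⟩ := hS.resolve_left h
    obtain ⟨S', A, hS', hA⟩ := exists_wemb hwN hw
    obtain ⟨e, he, h2⟩ := key S' _ hS' hwN
    exact ⟨e, S', A, he, Or.inl ⟨_, hS', hwN⟩, hA, fun h3 => absurd h3 h, h2⟩

/-- the smooth case -/
theorem small_tangent {n N m : ℕ} {S : Set (MvPolynomial (Fin (n + 1)) ℂ)}
    (hS : ∀ F ∈ S, IsForm F) (h : TangentSpaces S m) (hm : 2 * m + 1 ≤ N) :
    ∃ d, Sm S d ∧ d + 1 ≤ N := ⟨2 * m, sm_points hS h, hm⟩

section

variable {P : ∀ n : ℕ, Set (MvPolynomial (Fin (n + 1)) ℂ) →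
    Set (MvPolynomial (Fin (n + 1)) ℂ) → MvPolynomial (Fin (n + 1)) ℂ → Prop}

/-- from a closed subset to the hypersurface -/
theorem hyp_excep (hP : KindQ P) {N : ℕ} {S' T : Set (MvPolynomial (Fin (N + 1)) ℂ)}
    {B : MvPolynomial (Fin (N + 1)) ℂ} (hS' : ∀ F ∈ S', IsForm F) (hT : ∀ F ∈ T, IsForm F)
    (hB : Hy S' B) (h : ExcepS P S' T) : ExcepS P {B} T := by
  have h1 : ∀ G, IsForm G → (P N {B} T G ↔ P N S' T G) := fun G hG =>
    hyp_iff' hP.typ hS' hT hB.form hB.van (hP.out hB) hG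
  have h2 : ∀ G, IsForm G → (OnSpecialQ {B} T G ↔ OnSpecialQ S' T G) := fun G hG =>
    hyp_iff' (P := fun _ S T G => OnSpecialQ S T G) typ_special hS' hT hB.form hB.van
      (kindQ_special.out hB) hG
  refine ⟨fun G hG => (h1 G hG).trans ((h.1 G hG).trans (h2 G hG).symm), ?_⟩
  intro L _ _ w y hw hy _ hyT hlog hc
  have hyS : On S' y := fun F hF => hc.1 F (hS' F hF) (kindQ_special.out hB F hF)
  exact h.2 L w y hw hy hyS hyT hlog (comp_congr h2 hc)

/-- no component -/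
theorem hyp_noComponent (hP : KindQ P) {N : ℕ} {S' T : Set (MvPolynomial (Fin (N + 1)) ℂ)}
    {B : MvPolynomial (Fin (N + 1)) ℂ} (hS' : ∀ F ∈ S', IsForm F) (hT : ∀ F ∈ T, IsForm F)
    (hB : Hy S' B) (h : NoComponent S' T (P N S' T)) : NoComponent {B} T (P N {B} T) := by
  have h1 : ∀ G, IsForm G → (P N {B} T G ↔ P N S' T G) := fun G hG =>
    hyp_iff' hP.typ hS' hT hB.form hB.van (hP.out hB) hG
  intro L _ _ w y hw hy hyT hlog hc
  have hyS : On S' y := fun F hF => hc.1 F (hS' F hF) (hP.out hB F hF)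
  exact h L w y hw ⟨hy.ne, fun p => hyS p.1 p.2, hy.gen, hy.dim⟩ hyT hlog (comp_congr h1 hc)

section

variable (hP : Typ P) {n : ℕ} {S T : Set (MvPolynomial (Fin (n + 1)) ℂ)}
  (hS : ∀ p ∈ S, IsForm p) (hT : ∀ F ∈ T, IsForm F)
  (h : ∀ (L : Type) [Field L] [Algebra ℂ L] (w : ℕ) (y : Fin (n + 1) → L), 1 ≤ w →
    Gen L w y → On S y → NotIn T y → (LogGeneral T L w y ↔ ∃ G, IsForm G ∧ aeval y G ≠ 0 ∧
      P n (Eqs y) T G))
include hP hS hT h

omit hT in
/-- the special set of a subvariety -/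
theorem allS_special {L : Type} [Field L] [Algebra ℂ L] {y : Fin (n + 1) → L}
    (hyS : On S y) {G : MvPolynomial (Fin (n + 1)) ℂ} (hG : IsForm G)
    (hPG : P n (Eqs y) T G) : OnSpecialQ (Eqs y) T G := by
  intro L' _ _ w' y' hw' hsub hnot'
  by_cases h0 : aeval y' G = 0
  · exact Or.inr h0
  left
  have hgen' : Gen L' w' y' := ⟨hsub.ne, hsub.gen, hsub.dim⟩
  refine (h L' w' y' hw' hgen' (fun p hp => hsub.mem ⟨p, hS p hp, hyS p hp⟩) hnot').2
    ⟨G, hG, h0, ?_⟩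
  exact hP.mono n (Eqs y) (Eqs y') T (fun L'' _ _ x hx => qf_eqs (qf_eqsForm y)
    (fun p hp => hsub.mem ⟨p, hp⟩) L'' x hx) G hPG

theorem allS_eq (G : MvPolynomial (Fin (n + 1)) ℂ) (hG : IsForm G) :
    P n S T G ↔ OnSpecialQ S T G := by
  constructor
  · refine typ_deg (I := P) (J := fun _ S T G => OnSpecialQ S T G) hP typ_special ?_ G hG
    intro e G hG he hPG
    by_contra hn
    obtain ⟨L, iF, iA, w, y, hw, hgen, hGy, hnot, hSy, hc⟩ :=
      typ_comp (J := fun _ S T G => OnSpecialQ S T G) typ_special hS hT hG he hn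
    have h1 : P n (Eqs y) T G := hP.mono n S (Eqs y) T
      (fun L' _ _ x hx => qf_eqs hS hSy L' x hx) G hPG
    exact typ_con (J := fun _ S T G => OnSpecialQ S T G) typ_special hc ⟨e, hG⟩ hGy
      (allS_special hP hS h hSy ⟨e, hG⟩ h1)
  · refine typ_deg (I := fun _ S T G => OnSpecialQ S T G) (J := P) typ_special hP ?_ G hG
    intro e G hG he hSG
    by_contra hn
    obtain ⟨L, iF, iA, w, y, hw, hgen, hGy, hnot, hSy, hc⟩ := typ_comp hP hS hT hG he hn
    have h1 : LogGeneral T L w y := by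
      rcases hSG L w y hw ⟨hgen.ne, fun p => hSy p.1 p.2, hgen.gen, hgen.dim⟩ hnot with h2 | h2
      · exact h2
      · exact absurd h2 hGy
    obtain ⟨G', hG', hG'y, hPG'⟩ := (h L w y hw hgen hSy hnot).1 h1
    exact typ_con hP hc hG' hG'y hPG'

/-- **From irreducible varieties to closed sets.** -/
theorem excep_of_all : ExcepS P S T := by
  refine ⟨allS_eq hP hS hT h, ?_⟩
  intro L _ _ w y hw hy hyS hyT hlog hc
  obtain ⟨G, hG, hGy, hPG⟩ := (h L w y hw hy hyS hyT).1 hlog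
  exact typ_con (J := fun _ S T G => OnSpecialQ S T G) typ_special hc hG hGy
    (allS_special hP hS h hyS hG hPG)

end

end

end Pool.Agent.H911.KE
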