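import Pool.Agent.H911.KE.Log
import Pool.Agent.H911.EM.Ff

/-!
Projective manifolds in smooth hypersurfaces: the models with the tangent spaces of the image.
-/

set_option autoImplicit false

namespace Pool.Agent.H911.KE

open MvPolynomial Metric
open Pool.Agent.W602.GT (SubVar GeneralType)
open Pool.Agent.N254.SQ (IsForm Eqs Gen SmoothForm powerForm powerFormOver SmoothOver)
open Pool.Agent.H911.EM

section

variable {K : Type} [Field K] {n N : ℕ} {S : Set (MvPolynomial (Fin (n + 1)) K)}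
  {S' : Set (MvPolynomial (Fin (N + 1)) K)} {A : Fin (N + 1) → MvPolynomial (Fin (n + 1)) K}

/-- all forms which vanish on `V(S)` -/
def rad (S : Set (MvPolynomial (Fin (n + 1)) K)) : Set (MvPolynomial (Fin (n + 1)) K) :=
  {G | (∃ e, G.IsHomogeneous e) ∧ ∀ (Ω : Type) [Field Ω] [Algebra K Ω] (x : Fin (n + 1) → Ω),
    On S x → aeval x G = 0}

theorem on_rad (hS : ∀ F ∈ S, ∃ e, F.IsHomogeneous e) {Ω : Type} [Field Ω] [Algebra K Ω]
    (x : Fin (n + 1) → Ω) : On (rad S) x ↔ On S x :=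
  ⟨fun h F hF => h F ⟨hS F hF, fun _ _ _ _ hu => hu F hF⟩, fun h _ hG => hG.2 Ω x h⟩

theorem emb_rad (hE : Emb S S' A) (hS' : ∀ F ∈ S', ∃ e, F.IsHomogeneous e) :
    Emb S (rad S') A where
  lin := hE.lin
  map := fun Ω _ _ x hx => (on_rad hS' _).2 (hE.map Ω x hx)
  zero := hE.zero
  inv := by
    intro Ω _ _ z hz hzS
    obtain ⟨k, H, R, h1, h2, h3, h4, h5⟩ := hE.inv Ω z hz ((on_rad hS' z).1 hzS)
    exact ⟨k, H, R, h1, h2, h3, fun Ω' _ _ u hu => h4 Ω' u ((on_rad hS' u).1 hu), h5⟩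

theorem emb_id : Emb S S X where
  lin := fun i => isHomogeneous_X K i
  map := by
    intro Ω _ _ x hx
    have h1 : at' (X : Fin (n + 1) → MvPolynomial (Fin (n + 1)) K) x = x :=
      funext fun i => aeval_X x i
    rw [h1]
    exact hx
  zero := by
    intro Ω _ _ x _ hx
    have h1 : at' (X : Fin (n + 1) → MvPolynomial (Fin (n + 1)) K) x = x :=
      funext fun i => aeval_X x i
    rwa [h1] at hx
  inv := by
    intro Ω _ _ z hz hzS
    have h1 : ∀ (Ω' : Type) [Field Ω'] [Algebra K Ω'] (u : Fin (n + 1) → Ω'),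
      at' (X : Fin (n + 1) → MvPolynomial (Fin (n + 1)) K) u = u := fun Ω' _ _ u =>
      funext fun i => aeval_X u i
    refine ⟨0, 1, X, isHomogeneous_one _ _, fun j => isHomogeneous_X K j, ?_, ?_, ?_⟩
    · rw [map_one]
      exact one_ne_zero
    · intro Ω' _ _ u hu
      rw [h1, h1, map_one, one_smul]
      exact ⟨hu, rfl⟩
    · intro Ω' _ _ x _
      rw [h1, h1, map_one, one_smul]

/-- the tangent spaces of the image -/
theorem tan_rad [CharZero K] (hS : ∀ F ∈ S, ∃ e, F.IsHomogeneous e) (hE : Emb S S' A)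
    {Ω : Type} [Field Ω] [Algebra K Ω] {z : Fin (N + 1) → Ω} (hz : z ≠ 0) (hzS : On S' z) :
    ∃ x : Fin (n + 1) → Ω, x ≠ 0 ∧ On S x ∧
      Module.finrank Ω (Tan (rad S') z) ≤ Module.finrank Ω (Tan S x) := by
  have : CharZero Ω := charZero_of_injective_algebraMap (algebraMap K Ω).injective
  obtain ⟨k, H, R, hH, hR, h0, h1, h2⟩ := hE.inv Ω z hz hzS
  obtain ⟨h3, h4⟩ := h1 Ω z hzS
  have hx0 : at' R z ≠ 0 := by
    intro h
    rw [h] at h4
    have h5 : at' A (0 : Fin (n + 1) → Ω) = 0 := by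
      have h6 := at_smul hE.lin (0 : Ω) (0 : Fin (n + 1) → Ω)
      rw [zero_smul, pow_one, zero_smul] at h6
      exact h6
    rw [h5] at h4
    rcases smul_eq_zero.1 h4.symm with h6 | h6
    · exact h0 h6
    · exact hz h6
  refine ⟨at' R z, hx0, h3, ?_⟩
  have hlin : ∀ (G : MvPolynomial (Fin (N + 1)) K) (u v : Fin (N + 1) → Ω),
      dv G z (u + v) = dv G z u + dv G z v := by
    intro G u v
    have h6 := dv_lin G z u v 1
    rwa [one_smul, one_mul] at h6
  have hsc : ∀ (G : MvPolynomial (Fin (N + 1)) K) (c : Ω) (v : Fin (N + 1) → Ω),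
      dv G z (c • v) = c * dv G z v := by
    intro G c v
    have h6 := dv_lin G z 0 v c
    have h7 : dv G z (0 : Fin (N + 1) → Ω) = 0 := by
      unfold dv
      simp
    rwa [zero_add, h7, zero_add] at h6
  have hmem : ∀ v ∈ Tan (rad S') z, (fun j => dv (R j) z v) ∈ Tan S (at' R z) := by
    intro v hv F hF
    rw [← dv_bind]
    refine hv _ ⟨?_, fun Ω' _ _ u hu => ?_⟩
    · obtain ⟨e, he⟩ := hS F hF
      exact ⟨_, bind_hom hR he⟩
    · rw [bind_at]
      exact (h1 Ω' u hu).1 F hF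
  let φ : Tan (rad S') z →ₗ[Ω] Tan S (at' R z) :=
    { toFun := fun v => ⟨fun j => dv (R j) z v, hmem v v.2⟩
      map_add' := by
        intro u v
        apply Subtype.ext
        funext j
        exact hlin (R j) u v
      map_smul' := by
        intro c v
        apply Subtype.ext
        funext j
        exact hsc (R j) c v }
  refine LinearMap.finrank_le_finrank_of_injective (f := φ) ?_
  rw [← LinearMap.ker_eq_bot, LinearMap.ker_eq_bot']
  intro v hv
  have hv0 : ∀ j, dv (R j) z (v : Fin (N + 1) → Ω) = 0 := by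
    intro j
    have h5 := congrArg Subtype.val hv
    exact congrFun h5 j
  -- the vector is a multiple of `z`
  have h5 : ∀ i, aeval z H * (v : Fin (N + 1) → Ω) i + z i * dv H z (v : Fin (N + 1) → Ω) = 0 := by
    intro i
    have h6 : bind₁ R (A i) - H * X i ∈ rad S' := by
      refine ⟨⟨k + 1, ?_⟩, fun Ω' _ _ u hu => ?_⟩
      · have h7 := bind_hom hR (hE.lin i)
        rw [mul_one] at h7
        exact h7.sub (hH.mul (isHomogeneous_X K i))
      · rw [map_sub, bind_at, map_mul, aeval_X, sub_eq_zero]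
        exact congrFun (h1 Ω' u hu).2 i
    have h7 := v.2 _ h6
    have h8 : dv (bind₁ R (A i) - H * X i) z (v : Fin (N + 1) → Ω) =
        dv (bind₁ R (A i)) z v - dv (H * X i) z v := by
      rw [sub_eq_add_neg, dv_add]
      have h9 : (-(H * X i) : MvPolynomial (Fin (N + 1)) K) = C (-1) * (H * X i) := by
        rw [C_neg, C_1, neg_one_mul]
      rw [h9, dv_mul, dv_C, mul_zero, add_zero, aeval_C, map_neg, map_one]
      ring
    rw [h8, dv_bind, dv_mul, dv_X, aeval_X] at h7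
    have h10 : dv (A i) (at' R z) (fun j => dv (R j) z (v : Fin (N + 1) → Ω)) = 0 := by
      rw [show (fun j => dv (R j) z (v : Fin (N + 1) → Ω)) = 0 from funext hv0]
      unfold dv
      simp
    rw [h10, zero_sub, neg_eq_zero] at h7
    exact h7
  have hH0 : (aeval z H : Ω) ≠ 0 := h0
  have h6 : (v : Fin (N + 1) → Ω) =
      (-(dv H z (v : Fin (N + 1) → Ω)) / aeval z H) • z := by
    funext i
    rw [Pi.smul_apply, smul_eq_mul]
    have h7 := h5 i
    field_simp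
    linear_combination h7
  obtain ⟨c, hc⟩ : ∃ c : Ω, (v : Fin (N + 1) → Ω) = c • z := ⟨_, h6⟩
  obtain ⟨j, hj⟩ := Function.ne_iff.1 hx0
  have h7 := hv0 j
  rw [hc, hsc, dv_euler (hR j)] at h7
  have h8 : c = 0 := by
    rcases mul_eq_zero.1 h7 with h9 | h9
    · exact h9
    · rcases mul_eq_zero.1 h9 with h10 | h10
      · exact absurd h10 (Nat.cast_ne_zero.2 (Nat.succ_ne_zero k))
      · exact absurd h10 hj
  apply Subtype.ext
  rw [hc, h8, zero_smul]
  rfl

end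

/-- `V(S)` is a connected projective manifold of dimension `w`: it is the closure of a point `y` (given by
homogeneous coordinates in its function field `L`) of dimension `w`, and all its tangent spaces are of
dimension at most `w` -/
def Manifold {n : ℕ} (S : Set (MvPolynomial (Fin (n + 1)) ℂ)) (w : ℕ) : Prop :=
  (∀ F ∈ S, IsForm F) ∧ TangentSpaces S w ∧
    ∃ (L : Type) (_ : Field L) (_ : Algebra ℂ L) (y : Fin (n + 1) → L),
      SubVar (fun p : S => (p : MvPolynomial (Fin (n + 1)) ℂ)) L w y ∧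
      ∀ x : Fin (n + 1) → ℂ, x ≠ 0 → (∀ F ∈ S, eval x F = 0) → ∀ G ∈ Eqs y, eval x G = 0

/-- **The models, with the conditions on the image.** -/
theorem exists_both (N : ℕ) (hN : 1 ≤ N) : ∃ D₁ : ℕ → ℕ,
    (∀ (n : ℕ) (S : Set (MvPolynomial (Fin (n + 1)) ℂ)), Small S N →
      ∃ (e : ℕ) (S' : Set (MvPolynomial (Fin (N + 1)) ℂ))
        (A : Fin (N + 1) → MvPolynomial (Fin (n + 1)) ℂ), 1 ≤ e ∧ Small S' N ∧ WEmb S S' A ∧
        ((∃ d, Sm S d ∧ d + 1 ≤ N) → Emb S S' A ∧ ∃ d, Sm S' d ∧ d + 1 ≤ N) ∧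
        ∀ D, D₁ e ≤ D → ∃ Q : Fin (N * (2 * N + 1)) → MvPolynomial (Fin (N + 1)) ℂ,
          (∀ t, (Q t).IsHomogeneous e) ∧ HyperbolicOutside (powerForm D Q) S' ∧
          CurvesOutside (powerForm D Q) S') ∧
    ∀ (n : ℕ) (S : Set (MvPolynomial (Fin (n + 1)) ℂ)) (w : ℕ), 2 * w + 1 ≤ N → Manifold S w →
      ∃ (e : ℕ) (S' : Set (MvPolynomial (Fin (N + 1)) ℂ))
        (A : Fin (N + 1) → MvPolynomial (Fin (n + 1)) ℂ), 1 ≤ e ∧ Manifold S' w ∧ Emb S S' A ∧
        ∀ D, D₁ e ≤ D → ∃ Q : Fin (N * (2 * N + 1)) → MvPolynomial (Fin (N + 1)) ℂ,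
          (∀ t, (Q t).IsHomogeneous e) ∧ HyperbolicOutside (powerForm D Q) S' ∧
          CurvesOutside (powerForm D Q) S' := by
  obtain ⟨D₁, H⟩ := exists_hypDF N hN
  have key : ∀ (S' : Set (MvPolynomial (Fin (N + 1)) ℂ)) (d : ℕ), Sm S' d → d + 1 ≤ N →
      ∃ e : ℕ, 1 ≤ e ∧ ∀ D, D₁ e ≤ D →
        ∃ Q : Fin (N * (2 * N + 1)) → MvPolynomial (Fin (N + 1)) ℂ,
          (∀ t, (Q t).IsHomogeneous e) ∧ HyperbolicOutside (powerForm D Q) S' ∧
          CurvesOutside (powerForm D Q) S' := by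
    intro S' d hS' hd
    obtain ⟨e, he, h⟩ := H ℂ S' d hS' hd
    refine ⟨e, he, fun D hD => ?_⟩
    obtain ⟨Q, hQ, hsm, hv, hO⟩ := h D hD
    refine ⟨Q, hQ, outside_of ?_ hv (hO _).1, ?_⟩
    · intro y hy
      obtain ⟨j, hj⟩ := hsm ℂ (RingHom.id ℂ) y hy
      exact ⟨j, hj⟩
    · intro E _ _ _ y hy hyA
      have h1 := (hO (RingHom.id ℂ)).2 E y hy (by rw [MvPolynomial.map_id]; exact hyA)
      simp only [MvPolynomial.map_id] at h1
      exact h1
  refine ⟨D₁, fun n S hS => ?_, fun n S w hw hS => ?_⟩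
  · by_cases h : ∃ d, Sm S d ∧ d + 1 ≤ N
    · obtain ⟨d, hd, hdN⟩ := h
      obtain ⟨S', A, hS', hA⟩ := exists_emb hdN hd
      obtain ⟨e, he, h2⟩ := key S' d hS' hdN
      exact ⟨e, S', A, he, Or.inl ⟨d, hS', hdN⟩, hA.weak hd.forms hS'.forms,
        fun _ => ⟨hA, d, hS', hdN⟩, h2⟩
    · obtain ⟨w, hw, hwN⟩ := hS.resolve_left h
      obtain ⟨S', A, hS', hA⟩ := exists_wemb hwN hw
      obtain ⟨e, he, h2⟩ := key S' _ hS' hwN
      exact ⟨e, S', A, he, Or.inl ⟨_, hS', hwN⟩, hA, fun h3 => absurd h3 h, h2⟩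
  · obtain ⟨hf, ht, L, iF, iA, y, hy, hx⟩ := hS
    obtain ⟨S₁, A, hS₁, hA₁⟩ := exists_emb hw (sm_points hf ht)
    have hA := emb_rad hA₁ hS₁.forms
    have hf' : ∀ F ∈ rad S₁, IsForm F := fun F hF => hF.1
    have hon : ∀ (x : Fin (N + 1) → ℂ), (∀ F ∈ rad S₁, eval x F = 0) → On S₁ x := fun x hx =>
      (on_rad hS₁.forms x).1 fun F hF => hx F hF
    have ht' : TangentSpaces (rad S₁) w := by
      intro z hz hzS
      obtain ⟨x, hx0, hxS, h1⟩ := tan_rad hf hA₁ hz (hon z hzS)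
      exact h1.trans (ht x hx0 fun F hF => hxS F hF)
    obtain ⟨e, he, h2⟩ := key (rad S₁) (2 * w) (sm_points hf' ht') hw
    have hyS : On S y := fun p hp => hy.mem ⟨p, hp⟩
    have hW := hA.weak hf hf'
    have hgen := hW.gen ⟨hy.ne, hy.gen, hy.dim⟩ hyS
    refine ⟨e, rad S₁, A, he, ⟨hf', ht', L, iF, iA, at' A y, ⟨hgen.ne, fun p =>
      hA.map L y hyS p.1 p.2, hgen.gen, hgen.dim⟩, ?_⟩, hA, h2⟩
    intro z hz hzS G hG
    obtain ⟨k, H', R, hH, hR, h0, h3, h4⟩ := hA.inv ℂ z hz fun F hF => hzS F hF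
    obtain ⟨h5, h6⟩ := h3 ℂ z fun F hF => hzS F hF
    have hx0 : at' R z ≠ 0 := by
      intro h
      rw [h] at h6
      have h7 : at' A (0 : Fin (n + 1) → ℂ) = 0 := by
        have h8 := at_smul hA.lin (0 : ℂ) (0 : Fin (n + 1) → ℂ)
        rw [zero_smul, pow_one, zero_smul] at h8
        exact h8
      rw [h7] at h6
      rcases smul_eq_zero.1 h6.symm with h8 | h8
      · exact h0 h8
      · exact hz h8
    have h7 : bind₁ A G ∈ Eqs y := by
      refine ⟨?_, ?_⟩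
      · obtain ⟨⟨d, hd⟩, -⟩ := hG
        exact ⟨_, bind_hom hA.lin hd⟩
      · have h8 := hG.2
        rw [bind_at]
        exact h8
    have h8 := hx (at' R z) hx0 (fun F hF => h5 F hF) _ h7
    have h9 : eval (at' R z) (bind₁ A G) = aeval (at' A (at' R z)) G := bind_at A G (at' R z)
    rw [h9, h6] at h8
    obtain ⟨⟨d, hd⟩, -⟩ := hG
    rw [ev_smul hd] at h8
    rcases mul_eq_zero.1 h8 with h10 | h10
    · exact absurd h10 (pow_ne_zero _ h0)
    · exact h10

/-- the class of connected projective manifolds of dimension at most `m` -/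
def Manifolds (m : ℕ) (n : ℕ) (S : Set (MvPolynomial (Fin (n + 1)) ℂ)) : Prop :=
  ∃ w, w ≤ m ∧ Manifold S w

/-- Three statements are equivalent, for the property `W` of closed subsets `X = V(S)` of projective
spaces and the class `C` of closed subsets: `W` is true for all `X` in the class; `W` is true for all
smooth hypersurfaces in `P^N` which are hyperbolic outside of a closed subset in the class; `W` is true
for those hypersurfaces `∑ t, Q_t(y) (y_0 + t y_1 + ⋯ + t^N y_N)^D = 0`, with `N (2 N + 1)` forms `Q_t` of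
the same degree `e` and `D = δ e`, which are hyperbolic outside of a closed subset in the class. -/
def Equivalences (N : ℕ) (δ : ℕ → ℕ)
    (C W : ∀ n : ℕ, Set (MvPolynomial (Fin (n + 1)) ℂ) → Prop) : Prop :=
  [∀ (n : ℕ) (S : Set (MvPolynomial (Fin (n + 1)) ℂ)), C n S → W n S,
    ∀ B : MvPolynomial (Fin (N + 1)) ℂ, IsForm B →
      (∃ S' : Set (MvPolynomial (Fin (N + 1)) ℂ), C N S' ∧ HyperbolicOutside B S') → W N {B},
    ∀ (e : ℕ) (Q : Fin (N * (2 * N + 1)) → MvPolynomial (Fin (N + 1)) ℂ),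
      (∀ t, (Q t).IsHomogeneous e) →
      (∃ S' : Set (MvPolynomial (Fin (N + 1)) ℂ), C N S' ∧
        HyperbolicOutside (powerForm (δ e) Q) S') →
      W N {powerForm (δ e) Q}].TFAE

/-- the same as `Equivalences`, where also the algebraic curves in the hypersurfaces which are not in the
closed subset are of bounded degree -/
def EquivalencesF (N : ℕ) (δ : ℕ → ℕ)
    (C W : ∀ n : ℕ, Set (MvPolynomial (Fin (n + 1)) ℂ) → Prop) : Prop :=
  [∀ (n : ℕ) (S : Set (MvPolynomial (Fin (n + 1)) ℂ)), C n S → W n S,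
    ∀ B : MvPolynomial (Fin (N + 1)) ℂ, IsForm B →
      (∃ S' : Set (MvPolynomial (Fin (N + 1)) ℂ), C N S' ∧ HyperbolicOutside B S' ∧
        CurvesOutside B S') → W N {B},
    ∀ (e : ℕ) (Q : Fin (N * (2 * N + 1)) → MvPolynomial (Fin (N + 1)) ℂ),
      (∀ t, (Q t).IsHomogeneous e) →
      (∃ S' : Set (MvPolynomial (Fin (N + 1)) ℂ), C N S' ∧
        HyperbolicOutside (powerForm (δ e) Q) S' ∧ CurvesOutside (powerForm (δ e) Q) S') →
      W N {powerForm (δ e) Q}].TFAE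

theorem equivalencesF_of {N : ℕ} {D₁ δ : ℕ → ℕ} (hδ : ∀ e, D₁ e ≤ δ e)
    {C W : ∀ n : ℕ, Set (MvPolynomial (Fin (n + 1)) ℂ) → Prop}
    (H : ∀ (n : ℕ) (S : Set (MvPolynomial (Fin (n + 1)) ℂ)), C n S →
      ∃ (e : ℕ) (S' : Set (MvPolynomial (Fin (N + 1)) ℂ)), C N S' ∧ ∀ D, D₁ e ≤ D →
        ∃ Q : Fin (N * (2 * N + 1)) → MvPolynomial (Fin (N + 1)) ℂ,
          (∀ t, (Q t).IsHomogeneous e) ∧ HyperbolicOutside (powerForm D Q) S' ∧
          CurvesOutside (powerForm D Q) S' ∧ (W N {powerForm D Q} → W n S))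
    (Hid : ∀ (B : MvPolynomial (Fin (N + 1)) ℂ) (S' : Set (MvPolynomial (Fin (N + 1)) ℂ)),
      IsForm B → C N S' → HyperbolicOutside B S' → CurvesOutside B S' → W N S' → W N {B}) :
    EquivalencesF N δ C W := by
  unfold EquivalencesF
  tfae_have 1 → 2 := by
    rintro h B hB ⟨S', hS', hO, hO'⟩
    exact Hid B S' hB hS' hO hO' (h N S' hS')
  tfae_have 2 → 3 := by
    intro h e Q hQ hO
    exact h _ (power_form hQ) hO
  tfae_have 3 → 1 := by
    intro h n S hS
    obtain ⟨e, S', hS', h1⟩ := H n S hS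
    obtain ⟨Q, hQ, hO, hO', hW⟩ := h1 (δ e) (hδ e)
    exact hW (h e Q hQ ⟨S', hS', hO, hO'⟩)
  tfae_finish

theorem equivalences_of {N : ℕ} {D₁ δ : ℕ → ℕ} (hδ : ∀ e, D₁ e ≤ δ e)
    {C W : ∀ n : ℕ, Set (MvPolynomial (Fin (n + 1)) ℂ) → Prop}
    (H : ∀ (n : ℕ) (S : Set (MvPolynomial (Fin (n + 1)) ℂ)), C n S →
      ∃ (e : ℕ) (S' : Set (MvPolynomial (Fin (N + 1)) ℂ)), C N S' ∧ ∀ D, D₁ e ≤ D →
        ∃ Q : Fin (N * (2 * N + 1)) → MvPolynomial (Fin (N + 1)) ℂ,
          (∀ t, (Q t).IsHomogeneous e) ∧ HyperbolicOutside (powerForm D Q) S' ∧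
          (W N {powerForm D Q} → W n S))
    (Hid : ∀ (B : MvPolynomial (Fin (N + 1)) ℂ) (S' : Set (MvPolynomial (Fin (N + 1)) ℂ)),
      IsForm B → C N S' → HyperbolicOutside B S' → W N S' → W N {B}) :
    Equivalences N δ C W := by
  unfold Equivalences
  tfae_have 1 → 2 := by
    rintro h B hB ⟨S', hS', hO⟩
    exact Hid B S' hB hS' hO (h N S' hS')
  tfae_have 2 → 3 := by
    intro h e Q hQ hO
    exact h _ (power_form hQ) hO
  tfae_have 3 → 1 := by
    intro h n S hS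
    obtain ⟨e, S', hS', h1⟩ := H n S hS
    obtain ⟨Q, hQ, hO, hW⟩ := h1 (δ e) (hδ e)
    exact hW (h e Q hQ ⟨S', hS', hO⟩)
  tfae_finish

end Pool.Agent.H911.KE
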