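import Pool.Agent.H911.KE.Iff
import Pool.Graph.R_pool_sql_team_seeded_63374d34.N254.SQ.SabK
import Pool.Graph.R_pool_sql_team_seeded_63374d34.N254.SQ.Sab

/-!
Rational maps from semi-abelian varieties to a hypersurface which is hyperbolic outside of a closed set.
-/

set_option autoImplicit false

namespace Pool.Agent.H911.KE

open MvPolynomial
open Pool.Agent.N254.SQ (Eqs IsForm Gen NotIn OnSab sb_id sb_id1 sb_par sb_eval sb_diff diff_evalOn
  eval_scale)

/-- a nonconstant holomorphic map from a normed space to the cone of the hypersurface takes its values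
in the cone of the closed set -/
theorem curve_key {E : Type} [NormedAddCommGroup E] [NormedSpace ℂ E] {N : ℕ}
    {A : MvPolynomial (Fin (N + 1)) ℂ} (hAf : IsForm A) {S : Set (MvPolynomial (Fin (N + 1)) ℂ)}
    (hS : ∀ p ∈ S, IsForm p)
    (hcur : ∀ f : ℂ → Fin (N + 1) → ℂ, Differentiable ℂ f → (∀ w, f w ≠ 0) →
      (∀ w, eval (f w) A = 0) → (∀ a b, ∃ c : ℂ, f b = c • f a) ∨
        ∀ w, ∀ p ∈ S, eval (f w) p = 0) (F : E → Fin (N + 1) → ℂ)
    (hF : Differentiable ℂ F) (hA : ∀ p, eval (F p) A = 0)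
    (hne : ∃ p q i j, F p i * F q j ≠ F p j * F q i) (p : E) (hp : F p ≠ 0) :
    ∀ r ∈ S, eval (F p) r = 0 := by
  -- a second point whose image is different
  obtain ⟨q, i0, j0, hq⟩ : ∃ q i j, F p i * F q j ≠ F p j * F q i := by
    by_contra hcon
    push Not at hcon
    obtain ⟨p1, q1, i, j, hne'⟩ := hne
    obtain ⟨c, hc⟩ := sb_par hp (hcon p1)
    obtain ⟨c', hc'⟩ := sb_par hp (hcon q1)
    apply hne'
    rw [hc, hc']
    simp only [Pi.smul_apply, smul_eq_mul]
    ring
  -- the restriction to a line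
  have hl : Differentiable ℂ (fun s : ℂ => p + s • (q - p)) :=
    (differentiable_id.smul_const (q - p)).const_add p
  obtain ⟨f, hfF⟩ : ∃ f : ℂ → Fin (N + 1) → ℂ, ∀ s, f s = F (p + s • (q - p)) := ⟨_, fun _ => rfl⟩
  have hf : Differentiable ℂ f := by
    have : f = F ∘ fun s : ℂ => p + s • (q - p) := funext hfF
    rw [this]
    exact hF.comp hl
  have f0 : f 0 = F p := by rw [hfF, zero_smul, add_zero]
  have f1 : f 1 = F q := by rw [hfF, one_smul, add_sub_cancel]
  have hfA : ∀ s, eval (f s) A = 0 := fun s => by rw [hfF]; exact hA _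
  obtain ⟨a, ha⟩ : ∃ a, F p a ≠ 0 := by
    by_contra hcon
    push Not at hcon
    exact hp (funext hcon)
  obtain ⟨g, v, hg1, hv1, hfac, hv0⟩ := Pool.Agent.N133.WZ.reduce (fun j s => f s j)
    (fun j => differentiable_pi.1 hf j) (j0 := a) (z0 := 0) (by rw [f0]; exact ha)
  obtain ⟨w, hw⟩ : ∃ w : ℂ → Fin (N + 1) → ℂ, ∀ s j, w s j = v j s := ⟨fun s j => v j s, fun _ _ => rfl⟩
  have hw1 : Differentiable ℂ w := differentiable_pi.2 fun j => by
    have : (fun s => w s j) = v j := funext fun s => hw s j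
    rw [this]
    exact hv1 j
  have hw0 : ∀ s, w s ≠ 0 := by
    intro s h
    obtain ⟨j, hj⟩ := hv0 s
    apply hj
    rw [← hw, h, Pi.zero_apply]
  have hfw : ∀ s, f s = g s • w s := by
    intro s
    funext j
    rw [Pi.smul_apply, smul_eq_mul, hw]
    exact hfac j s
  have hg0 : g 0 ≠ 0 := by
    intro h
    apply ha
    rw [← f0, hfw, h, zero_smul, Pi.zero_apply]
  -- the reduced curve lies on the hypersurface
  have hwA : ∀ s, eval (w s) A = 0 := by
    obtain ⟨e, he⟩ := hAf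
    refine sb_id1 (b := fun s => g s ^ e) ?_ (hg1.fun_pow e) (fun s => ?_) ⟨0, pow_ne_zero e hg0⟩
    · rw [← differentiableOn_univ]
      exact diff_evalOn A hw1.differentiableOn
    · have h1 := hfA s
      rw [hfw, eval_scale he] at h1
      rw [mul_comm]
      exact h1
  rcases hcur w hw1 hw0 hwA with h4 | h4
  · exfalso
    obtain ⟨c, hc⟩ := h4 0 1
    apply hq
    rw [← f0, ← f1, hfw, hfw, hc]
    simp only [Pi.smul_apply, smul_eq_mul]
    ring
  · intro r hr
    obtain ⟨e, he⟩ := hS r hr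
    rw [← f0, hfw, eval_scale he, h4 0 r hr, mul_zero]

/-- the images of semi-abelian varieties -/
theorem sab_base {N : ℕ} {A : MvPolynomial (Fin (N + 1)) ℂ} (hAf : IsForm A)
    {S : Set (MvPolynomial (Fin (N + 1)) ℂ)} (hS : ∀ p ∈ S, IsForm p)
    (hcur : ∀ f : ℂ → Fin (N + 1) → ℂ, Differentiable ℂ f → (∀ w, f w ≠ 0) →
      (∀ w, eval (f w) A = 0) → (∀ a b, ∃ c : ℂ, f b = c • f a) ∨
        ∀ w, ∀ p ∈ S, eval (f w) p = 0) : ∀ F ∈ S, OnSab {A} F := by
  intro G hG g r L hL hs F h1 h2 h3 h4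
  by_cases hcon : ∀ p p' i j, F p i * F p' j = F p j * F p' i
  · exact Or.inl hcon
  right
  push Not at hcon
  have hd := sb_diff h1
  have key := curve_key hAf hS hcur F hd (fun p => h3 p A rfl) hcon
  obtain ⟨p1, hp1⟩ := h2
  obtain ⟨i0, hi0⟩ : ∃ i, F p1 i ≠ 0 := by
    by_contra hc
    push Not at hc
    exact hp1 (funext hc)
  refine sb_id (b := fun p => F p i0) (sb_eval G hd) (differentiable_pi.1 hd i0) (fun p => ?_)
    ⟨p1, hi0⟩
  by_cases hp : F p = 0
  · simp only [hp, Pi.zero_apply, mul_zero]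
  · rw [key p hp G hG, zero_mul]

end Pool.Agent.H911.KE
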