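import Pool.Agent.H911.KE.Sab
import Pool.Agent.H911.KD.Abs

/-!
Hypersurfaces `A = 0` which are hyperbolic outside of the irreducible closed set `X'` with generic point
`z`: their exceptional sets are those of `X'`, and the conditions of the conjecture hold for all closed
subvarieties which are not in `X'`.
-/

set_option autoImplicit false

namespace Pool.Agent.H911.KE

open MvPolynomial Metric
open Pool.Agent.N254.SQ (Eqs IsForm Extends OnSab OnSpecial OnCurves OnDiscs OnSpecialQ OnCurvesQ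
  OnDiscsQ NotIn LogGeneral ce_general)
open Pool.Agent.W602.GT (SubVar GeneralType)

/-- the nonconstant entire curves in `A = 0` are in `X'` -/
def CurvesOut {N : ℕ} (A : MvPolynomial (Fin (N + 1)) ℂ) (S : Set (MvPolynomial (Fin (N + 1)) ℂ)) :
    Prop :=
  ∀ f : ℂ → Fin (N + 1) → ℂ, Differentiable ℂ f → (∀ t, f t ≠ 0) → (∀ t, eval (f t) A = 0) →
    (∀ s t, ∃ c : ℂ, f t = c • f s) ∨ ∀ t, ∀ p ∈ S, eval (f t) p = 0

/-- the discs in `A = 0` with an essential singularity are in `X'` -/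
def DiscsOut {N : ℕ} (A : MvPolynomial (Fin (N + 1)) ℂ) (S : Set (MvPolynomial (Fin (N + 1)) ℂ)) :
    Prop :=
  ∀ f : ℂ → Fin (N + 1) → ℂ, DifferentiableOn ℂ f (ball 0 1 \ {0}) →
    (∃ t ∈ ball (0 : ℂ) 1 \ {0}, f t ≠ 0) → (∀ t ∈ ball (0 : ℂ) 1 \ {0}, eval (f t) A = 0) →
    Extends f ∨ ∀ t ∈ ball (0 : ℂ) 1 \ {0}, ∀ p ∈ S, eval (f t) p = 0

/-- the closed subvarieties of `A = 0` of positive dimension which are not of general type are in
`X'` -/
def SubsOut {N : ℕ} (A : MvPolynomial (Fin (N + 1)) ℂ) (S : Set (MvPolynomial (Fin (N + 1)) ℂ)) :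
    Prop :=
  ∀ (L' : Type) [Field L'] [Algebra ℂ L'] (w : ℕ) (y : Fin (N + 1) → L'), 1 ≤ w →
    SubVar (fun _ : Unit => A) L' w y → GeneralType ℂ L' w ∨ ∀ p ∈ S, aeval y p = 0

section

variable {N : ℕ} {A : MvPolynomial (Fin (N + 1)) ℂ} {S : Set (MvPolynomial (Fin (N + 1)) ℂ)}

theorem unc_curves (hA : A ∈ S) (h : CurvesOut A S) (G : MvPolynomial (Fin (N + 1)) ℂ) :
    OnCurves {A} G ↔ OnCurves S G := by
  constructor
  · intro h1 f hf hf0 hfz
    exact h1 f hf hf0 fun t p hp => by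
      rw [Set.mem_singleton_iff] at hp
      rw [hp]
      exact hfz t A hA
  · intro h1 f hf hf0 hfA
    rcases h f hf hf0 (fun t => hfA t A rfl) with h2 | h2
    · exact Or.inl h2
    · exact h1 f hf hf0 h2

theorem unc_discs (hA : A ∈ S) (h : DiscsOut A S) (G : MvPolynomial (Fin (N + 1)) ℂ) :
    OnDiscs {A} G ↔ OnDiscs S G := by
  constructor
  · intro h1 f hf hf0 hfz
    exact h1 f hf hf0 fun t ht p hp => by
      rw [Set.mem_singleton_iff] at hp
      rw [hp]
      exact hfz t ht A hA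
  · intro h1 f hf hf0 hfA
    rcases h f hf hf0 (fun t ht => hfA t ht A rfl) with h2 | h2
    · exact Or.inl h2
    · exact h1 f hf hf0 h2

theorem unc_special (hA : A ∈ S) (h : SubsOut A S) (G : MvPolynomial (Fin (N + 1)) ℂ) :
    OnSpecial {A} G ↔ OnSpecial S G := by
  constructor
  · intro h1 L' _ _ w y hw hy
    refine h1 L' w y hw ⟨hy.ne, fun p => ?_, hy.gen, hy.dim⟩
    have hp := p.2
    rw [Set.mem_singleton_iff] at hp
    rw [hp]
    exact hy.mem ⟨A, hA⟩
  · intro h1 L' _ _ w y hw hy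
    rcases h L' w y hw ⟨hy.ne, fun _ => hy.mem ⟨A, rfl⟩, hy.gen, hy.dim⟩ with h2 | h2
    · exact Or.inl h2
    · exact h1 L' w y hw ⟨hy.ne, fun p => h2 p p.2, hy.gen, hy.dim⟩

theorem unc_sab (hA : A ∈ S) (hf : ∀ p ∈ S, IsForm p) (h : CurvesOut A S)
    (G : MvPolynomial (Fin (N + 1)) ℂ) : OnSab {A} G ↔ OnSab S G := by
  constructor
  · intro h1 g r L hL hs F h2 h3 h4 h5
    exact h1 g r L hL hs F h2 h3 (fun p q hq => by
      rw [Set.mem_singleton_iff] at hq
      rw [hq]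
      exact h4 p A hA) h5
  · intro h1 g r L hL hs F h2 h3 h4 h5
    by_cases hcon : ∀ p p' i j, F p i * F p' j = F p j * F p' i
    · exact Or.inl hcon
    · have h6 : ∀ p, ∀ q ∈ S, eval (F p) q = 0 := fun p q hq =>
        ((sab_base (hf A hA) hf h q hq) g r L hL hs F h2 h3 h4 h5).resolve_left hcon p
      exact h1 g r L hL hs F h2 h3 h6 h5

/-- a common form for a closed subset `V(R)` of `A = 0` which is not in `X'` -/
theorem unc_form_curves {R : Set (MvPolynomial (Fin (N + 1)) ℂ)} (hA : A ∈ R) (h : CurvesOut A S)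
    {p : MvPolynomial (Fin (N + 1)) ℂ} (hp : p ∈ S) : OnCurves R p := by
  intro f hf hf0 hfR
  rcases h f hf hf0 (fun t => hfR t A hA) with h2 | h2
  · exact Or.inl h2
  · exact Or.inr fun t => h2 t p hp

theorem unc_form_discs {R : Set (MvPolynomial (Fin (N + 1)) ℂ)} (hA : A ∈ R) (h : DiscsOut A S)
    {p : MvPolynomial (Fin (N + 1)) ℂ} (hp : p ∈ S) : OnDiscs R p := by
  intro f hf hf0 hfR
  rcases h f hf hf0 (fun t ht => hfR t ht A hA) with h2 | h2
  · exact Or.inl h2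
  · exact Or.inr fun t ht => h2 t ht p hp

theorem unc_form_special {R : Set (MvPolynomial (Fin (N + 1)) ℂ)} (hA : A ∈ R) (h : SubsOut A S)
    {p : MvPolynomial (Fin (N + 1)) ℂ} (hp : p ∈ S) : OnSpecial R p := by
  intro L' _ _ w y hw hy
  rcases h L' w y hw ⟨hy.ne, fun _ => hy.mem ⟨A, hA⟩, hy.gen, hy.dim⟩ with h2 | h2
  · exact Or.inl h2
  · exact Or.inr (h2 p hp)

theorem unc_form_sab {R : Set (MvPolynomial (Fin (N + 1)) ℂ)} (hA : A ∈ R)
    (hf : ∀ p ∈ S, IsForm p) (hAf : IsForm A) (h : CurvesOut A S)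
    {p : MvPolynomial (Fin (N + 1)) ℂ} (hp : p ∈ S) : OnSab R p := by
  intro g r L hL hs F h2 h3 h4 h5
  exact (sab_base hAf hf h p hp) g r L hL hs F h2 h3 (fun q s hs => by
    rw [Set.mem_singleton_iff] at hs
    rw [hs]
    exact h4 q A hA) h5

/-- from projective to quasi-projective varieties -/
theorem q_curves {R T : Set (MvPolynomial (Fin (N + 1)) ℂ)} {p : MvPolynomial (Fin (N + 1)) ℂ}
    (h : OnCurves R p) : OnCurvesQ R T p := fun f hf hf0 hfR _ => h f hf hf0 hfR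

theorem q_discs {R T : Set (MvPolynomial (Fin (N + 1)) ℂ)} (hR : ∀ q ∈ R, IsForm q)
    {p : MvPolynomial (Fin (N + 1)) ℂ} (h : OnDiscs R p) : OnDiscsQ R T p := by
  intro f hf hf0 hS
  exact h f hf hf0 (Pool.Agent.H911.GD.disc_eqs hR hf hS)

theorem q_special {R T : Set (MvPolynomial (Fin (N + 1)) ℂ)} {p : MvPolynomial (Fin (N + 1)) ℂ}
    (h : OnSpecial R p) : OnSpecialQ R T p := by
  intro L' _ _ w y hw hy _
  rcases h L' w y hw hy with h2 | h2
  · exact Or.inl (ce_general h2 _)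
  · exact Or.inr h2

end

end Pool.Agent.H911.KE
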